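import Pool.Agent.Lib.NLA.Spec

/-!
MP_00e23e_nt, project NL, chapter A', module Acg (helper13): one good cell with two smooth variables, one q. The cell of i
is an interval of natural numbers; the coefficients β are divisor sums over d ≤ U, and the sum over the cells becomes a sum
over d ≤ U of box sums, to which AtbStmt applies.
-/

set_option autoImplicit false

namespace Pool.Agent.Lib.NLA

open Finset Pool.Agent.Lib.EH3 Pool.Agent.Lib.TB Pool.Agent.Results.MP_00e23e_nt Pool.Agent.Lib.MI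
open Pool.Agent.Lib.MX (Bd Mz Bd_nonneg Bd_mono rp_le rn_le log_le_T Tau_x)

/-- the cell of i is an interval of natural numbers -/
private lemma Acg_cell (K i : ℕ) (hK : 1 ≤ K) : ∃ P Q : ℕ, ∀ m : ℕ, 1 ≤ m →
    (((i : ℝ) ≤ K * Real.log m ∧ (K : ℝ) * Real.log m < i + 1) ↔ (P < m ∧ m ≤ Q)) := by
  have hK' : (0 : ℝ) < K := by exact_mod_cast hK
  refine ⟨⌈Real.exp ((i : ℝ) / K)⌉₊ - 1, ⌈Real.exp (((i : ℝ) + 1) / K)⌉₊ - 1, ?_⟩
  intro m hm
  have hm' : (0 : ℝ) < m := by exact_mod_cast hm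
  have h1 : (i : ℝ) ≤ K * Real.log m ↔ ⌈Real.exp ((i : ℝ) / K)⌉₊ ≤ m := by
    rw [Nat.ceil_le, ← Real.le_log_iff_exp_le hm', div_le_iff₀ hK', mul_comm (Real.log m)]
  have h2 : (K : ℝ) * Real.log m < i + 1 ↔ m < ⌈Real.exp (((i : ℝ) + 1) / K)⌉₊ := by
    rw [Nat.lt_ceil, ← Real.log_lt_iff_lt_exp hm', lt_div_iff₀ hK', mul_comm (Real.log m)]
  have h3 : 0 < ⌈Real.exp ((i : ℝ) / K)⌉₊ := Nat.ceil_pos.2 (Real.exp_pos _)
  rw [h1, h2]
  omega

/-- the sum over the divisors d ≤ U goes outside -/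
private lemma Acg_inner (U w P Q : ℕ) (g E : ℕ → ℂ) :
    ∑ n ∈ Ioc P Q, (∑ d ∈ n.divisors.filter (fun d => d ≤ U ∧ w < n / d), E d) * g n =
    ∑ d ∈ Icc 1 U, E d * ∑ c ∈ Ioc (max w (P / d)) (max (max w (P / d)) (Q / d)), g (d * c) := by
  have h1 : ∀ n ∈ Ioc P Q, (∑ d ∈ n.divisors.filter (fun d => d ≤ U ∧ w < n / d), E d) * g n =
      ∑ d ∈ Icc 1 U, if d ∣ n ∧ w < n / d then E d * g n else 0 := by
    intro n hn
    rw [Finset.mem_Ioc] at hn
    rw [Finset.sum_mul, ← Finset.sum_filter]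
    apply Finset.sum_congr _ (fun _ _ => rfl)
    ext d
    simp only [Finset.mem_filter, Nat.mem_divisors, Finset.mem_Icc]
    constructor
    · rintro ⟨⟨hd, hn0⟩, hU, hw⟩
      exact ⟨⟨Nat.pos_of_dvd_of_pos hd (by omega), hU⟩, hd, hw⟩
    · rintro ⟨⟨hd1, hU⟩, hd, hw⟩
      exact ⟨⟨hd, by omega⟩, hU, hw⟩
  rw [Finset.sum_congr rfl h1, Finset.sum_comm]
  apply Finset.sum_congr rfl
  intro d hd
  rw [Finset.mem_Icc] at hd
  have hd0 : 0 < d := hd.1
  rw [← Finset.sum_filter, Finset.mul_sum]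
  symm
  apply Finset.sum_nbij (fun c => d * c)
  · intro c hc
    rw [Finset.mem_Ioc] at hc
    have a1 : w < c := by omega
    have a2 : P / d < c := by omega
    have a3 : c ≤ Q / d := by omega
    rw [Nat.div_lt_iff_lt_mul hd0] at a2
    rw [Nat.le_div_iff_mul_le hd0] at a3
    rw [Finset.mem_filter, Finset.mem_Ioc, Nat.mul_div_cancel_left c hd0, mul_comm d c]
    exact ⟨⟨a2, a3⟩, Dvd.intro_left c rfl, a1⟩
  · intro c _ c' _ h
    exact Nat.eq_of_mul_eq_mul_left hd0 h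
  · intro n hn
    rw [Finset.mem_coe, Finset.mem_filter, Finset.mem_Ioc] at hn
    obtain ⟨⟨b1, b2⟩, ⟨c, rfl⟩, b3⟩ := hn
    rw [Nat.mul_div_cancel_left c hd0] at b3
    refine ⟨c, ?_, rfl⟩
    rw [Finset.mem_coe, Finset.mem_Ioc]
    have a2 : P / d < c := by
      rw [Nat.div_lt_iff_lt_mul hd0, mul_comm c d]
      exact b1
    have a3 : c ≤ Q / d := by
      rw [Nat.le_div_iff_mul_le hd0, mul_comm c d]
      exact b2
    omega
  · intro c _
    rfl

private lemma Acg_ex (S D : Finset ℕ) (W E : ℕ → ℂ) (G : ℕ → ℕ → ℂ) :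
    ∑ m ∈ S, W m * ∑ d ∈ D, E d * G d m = ∑ d ∈ D, E d * ∑ m ∈ S, W m * G d m := by
  simp only [Finset.mul_sum]
  rw [Finset.sum_comm]
  apply Finset.sum_congr rfl
  intro d _
  apply Finset.sum_congr rfl
  intro m _
  ring

/-- the sum over the two cells as a sum over d ≤ U of box sums -/
private lemma Acg_tot (K i j w U Y : ℕ) (W E F : ℕ → ℂ) (hK : 1 ≤ K)
    (hij : (i : ℝ) + j + 2 ≤ K * Real.log Y) :
    ∃ (P1 Q1 : ℕ) (P2 Q2 : ℕ → ℕ), Q1 * (w + 1) ≤ Y ∧ (∀ d, P2 d ≤ Q2 d) ∧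
      ∑ m ∈ Icc 1 Y, ∑ n ∈ Icc 1 Y, cl K i (fun m => if w < m ∧ m ≤ Y then W m else 0) m *
        cl K j (fun n => if n ≤ Y then
          ∑ d ∈ n.divisors.filter (fun d => d ≤ U ∧ w < n / d), E d else 0) n * F (m * n) =
      ∑ d ∈ Icc 1 U, E d * ∑ m ∈ Ioc P1 Q1, W m * ∑ c ∈ Ioc (P2 d) (Q2 d), F (d * (m * c)) := by
  obtain ⟨P, Q, hPQ⟩ := Acg_cell K i hK
  obtain ⟨P', Q', hPQ'⟩ := Acg_cell K j hK
  obtain ⟨α, hα⟩ : ∃ α : ℕ → ℂ, α = fun m => if w < m ∧ m ≤ Y then W m else 0 := ⟨_, rfl⟩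
  obtain ⟨β, hβ⟩ : ∃ β : ℕ → ℂ, β = fun n => if n ≤ Y then
    ∑ d ∈ n.divisors.filter (fun d => d ≤ U ∧ w < n / d), E d else 0 := ⟨_, rfl⟩
  rw [← hα, ← hβ]
  by_cases h0 : ∀ n ∈ Icc 1 Y, cl K j β n = 0
  · refine ⟨0, 0, fun _ => 0, fun _ => 0, by omega, fun _ => le_rfl, ?_⟩
    have z1 : ∑ m ∈ Icc 1 Y, ∑ n ∈ Icc 1 Y, cl K i α m * cl K j β n * F (m * n) = 0 := by
      apply Finset.sum_eq_zero
      intro m _
      apply Finset.sum_eq_zero
      intro n hn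
      rw [h0 n hn]
      ring
    rw [z1]
    simp
  push Not at h0
  obtain ⟨n0, hn0, hcl⟩ := h0
  rw [Finset.mem_Icc] at hn0
  have hc : ((j : ℝ) ≤ K * Real.log n0 ∧ (K : ℝ) * Real.log n0 < j + 1) ∧ β n0 ≠ 0 := by
    unfold MI.cl at hcl
    split_ifs at hcl with hc
    · exact ⟨hc, hcl⟩
    · exact absurd rfl hcl
  have hn0w : w < n0 := by
    by_contra hle
    apply hc.2
    rw [hβ]
    simp only
    rw [if_pos hn0.2]
    apply Finset.sum_eq_zero
    intro d hd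
    rw [Finset.mem_filter] at hd
    have h1 := Nat.div_le_self n0 d
    have h2 := hd.2.2
    omega
  have hQ1 : ∀ m : ℕ, 1 ≤ m → (K : ℝ) * Real.log m < i + 1 → m ≤ Y / (w + 1) := by
    intro m hm hlog
    rw [Nat.le_div_iff_mul_le (by omega)]
    have hK' : (0 : ℝ) < K := by exact_mod_cast hK
    have hm' : (0 : ℝ) < m := by exact_mod_cast hm
    have hn' : (0 : ℝ) < n0 := by exact_mod_cast hn0.1
    have hY' : (0 : ℝ) < Y := by exact_mod_cast (hn0.1.trans hn0.2)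
    have h2 : (K : ℝ) * Real.log ((m : ℝ) * n0) < K * Real.log Y := by
      rw [Real.log_mul hm'.ne' hn'.ne', mul_add]
      linarith [hc.1.2]
    have h3 : Real.log ((m : ℝ) * n0) < Real.log Y := lt_of_mul_lt_mul_left h2 hK'.le
    have h4 : (m : ℝ) * n0 < Y := (Real.log_lt_log_iff (by positivity) hY').1 h3
    have h5 : m * n0 < Y := by exact_mod_cast h4
    have h6 : m * (w + 1) ≤ m * n0 := Nat.mul_le_mul_left m (by omega)
    omega
  refine ⟨max P w, min Q (Y / (w + 1)), fun d => max w (P' / d),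
    fun d => max (max w (P' / d)) (min Q' Y / d), ?_, fun d => le_max_left _ _, ?_⟩
  · calc min Q (Y / (w + 1)) * (w + 1) ≤ Y / (w + 1) * (w + 1) := Nat.mul_le_mul_right _ (min_le_right _ _)
      _ ≤ Y := Nat.div_mul_le_self Y (w + 1)
  -- the inner sum
  have hin : ∀ m, ∑ n ∈ Icc 1 Y, cl K j β n * F (m * n) = ∑ d ∈ Icc 1 U, E d *
      ∑ c ∈ Ioc (max w (P' / d)) (max (max w (P' / d)) (min Q' Y / d)), F (d * (m * c)) := by
    intro m
    have e1 : ∑ n ∈ Icc 1 Y, cl K j β n * F (m * n) = ∑ n ∈ Ioc P' (min Q' Y),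
        (∑ d ∈ n.divisors.filter (fun d => d ≤ U ∧ w < n / d), E d) * F (m * n) := by
      have hsub : Ioc P' (min Q' Y) ⊆ Icc 1 Y := by
        intro n hn
        rw [Finset.mem_Ioc, le_min_iff] at hn
        rw [Finset.mem_Icc]
        omega
      rw [← Finset.sum_subset hsub]
      · apply Finset.sum_congr rfl
        intro n hn
        rw [Finset.mem_Ioc, le_min_iff] at hn
        rw [MI.cl, if_pos ((hPQ' n (by omega)).2 ⟨hn.1, hn.2.1⟩), hβ]
        simp only [if_pos hn.2.2]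
      · intro n hn hn2
        rw [Finset.mem_Ioc, le_min_iff] at hn2
        rw [Finset.mem_Icc] at hn
        rw [MI.cl, if_neg, zero_mul]
        intro h
        exact hn2 ⟨((hPQ' n hn.1).1 h).1, ((hPQ' n hn.1).1 h).2, hn.2⟩
    rw [e1, Acg_inner U w P' (min Q' Y) (fun n => F (m * n)) E]
    apply Finset.sum_congr rfl
    intro d _
    congr 1
    apply Finset.sum_congr rfl
    intro c _
    rw [show m * (d * c) = d * (m * c) by ring]
  have e2 : ∀ m, ∑ n ∈ Icc 1 Y, cl K i α m * cl K j β n * F (m * n) =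
      cl K i α m * ∑ n ∈ Icc 1 Y, cl K j β n * F (m * n) := by
    intro m
    rw [Finset.mul_sum]
    exact Finset.sum_congr rfl (fun n _ => by ring)
  rw [Finset.sum_congr rfl (fun m _ => e2 m)]
  have hsub : Ioc (max P w) (min Q (Y / (w + 1))) ⊆ Icc 1 Y := by
    intro m hm
    rw [Finset.mem_Ioc, le_min_iff, max_lt_iff] at hm
    rw [Finset.mem_Icc]
    have := Nat.div_le_self Y (w + 1)
    omega
  have e3 : ∀ m ∈ Ioc (max P w) (min Q (Y / (w + 1))),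
      cl K i α m * ∑ n ∈ Icc 1 Y, cl K j β n * F (m * n) = W m * ∑ d ∈ Icc 1 U, E d *
      ∑ c ∈ Ioc (max w (P' / d)) (max (max w (P' / d)) (min Q' Y / d)), F (d * (m * c)) := by
    intro m hm
    have hmY := (Finset.mem_Icc.1 (hsub hm))
    rw [Finset.mem_Ioc, le_min_iff, max_lt_iff] at hm
    rw [hin m, MI.cl, if_pos ((hPQ m hmY.1).2 ⟨hm.1.1, hm.2.1⟩), hα]
    simp only [if_pos (And.intro hm.1.2 hmY.2)]
  rw [← Finset.sum_subset hsub, Finset.sum_congr rfl e3]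
  · exact Acg_ex _ _ W E (fun d m =>
      ∑ c ∈ Ioc (max w (P' / d)) (max (max w (P' / d)) (min Q' Y / d)), F (d * (m * c)))
  · intro m hm hm2
    rw [Finset.mem_Ioc, le_min_iff, max_lt_iff] at hm2
    rw [Finset.mem_Icc] at hm
    have hz : cl K i α m = 0 := by
      rw [MI.cl]
      split_ifs with h
      · rw [hα]
        simp only
        rw [if_neg]
        intro h4
        have h5 := (hPQ m hm.1).1 h
        exact hm2 ⟨⟨h5.1, h4.1⟩, h5.2, hQ1 m hm.1 h.2⟩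
      · rfl
    rw [hz, zero_mul]

theorem tAcg (h1 : AtbStmt) : AcgStmt := by
  intro X T q t w U Y K i j om a e hT hsq hqX htq hga hYX hK hw he hij
  have hT1 : 1 ≤ T := hT.1
  have hT0 : 0 < T := by linarith
  have hβ : (fun n : ℕ => if n ≤ Y then
      (((∑ d ∈ n.divisors.filter (fun d => d ≤ U ∧ w < n / d), e d) / T : ℝ) : ℂ) else 0) =
      (fun n : ℕ => if n ≤ Y then
        ∑ d ∈ n.divisors.filter (fun d => d ≤ U ∧ w < n / d), ((e d / T : ℝ) : ℂ) else 0) := by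
    funext n
    rw [Finset.sum_div, Complex.ofReal_sum]
  rw [hβ]
  obtain ⟨P1, Q1, P2, Q2, hQ1, hP2, hE⟩ := Acg_tot K i j w U Y
    (fun m => (((if om = 0 then 1 else Real.log m / T : ℝ)) : ℂ)) (fun d => ((e d / T : ℝ) : ℂ))
    (fun n => Ek a t q n) hK hij
  rw [hE]
  have hw' : (0 : ℝ) < w := by exact_mod_cast hw
  have hQY : (Q1 : ℝ) ≤ (Y : ℝ) / w := by
    rw [le_div_iff₀ hw']
    have h2 : Q1 * w ≤ Y := by
      have : Q1 * w ≤ Q1 * (w + 1) := Nat.mul_le_mul_left _ (by omega)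
      omega
    exact_mod_cast h2
  have hQX : (Q1 : ℝ) ≤ X := by
    have h2 : Q1 ≤ Y := by
      have : Q1 * 1 ≤ Q1 * (w + 1) := Nat.mul_le_mul_left _ (by omega)
      omega
    have h3 : (Q1 : ℝ) ≤ Y := by exact_mod_cast h2
    linarith
  obtain ⟨B, hB⟩ : ∃ B : ℝ, B = Real.sqrt q + (Q1 : ℝ) / Real.sqrt q + (Q1 : ℝ) / ((q / t).totient : ℝ) := ⟨_, rfl⟩
  obtain ⟨B', hB'⟩ : ∃ B' : ℝ, B' = Real.sqrt q + (Y : ℝ) / w / Real.sqrt q +
    (Y : ℝ) / w / ((q / t).totient : ℝ) := ⟨_, rfl⟩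
  rw [← hB']
  have hB0 : 0 ≤ B := by
    rw [hB]
    positivity
  have hBB : B ≤ B' := by
    rw [hB, hB']
    have a1 : (Q1 : ℝ) / Real.sqrt q ≤ (Y : ℝ) / w / Real.sqrt q :=
      div_le_div_of_nonneg_right hQY (Real.sqrt_nonneg _)
    have a2 : (Q1 : ℝ) / ((q / t).totient : ℝ) ≤ (Y : ℝ) / w / ((q / t).totient : ℝ) :=
      div_le_div_of_nonneg_right hQY (Nat.cast_nonneg _)
    linarith
  have hT4 : 0 ≤ T ^ 4 := by positivity
  -- one d
  have hone : ∀ d ∈ Icc 1 U, ‖((e d / T : ℝ) : ℂ) * ∑ m ∈ Ioc P1 Q1,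
      (((if om = 0 then 1 else Real.log m / T : ℝ)) : ℂ) * ∑ c ∈ Ioc (P2 d) (Q2 d), Ek a t q (d * (m * c))‖ ≤
      4 * T ^ 4 * B := by
    intro d _
    have hb := h1 X T q t d P1 Q1 (P2 d) (Q2 d) a hT hsq hqX htq hga hQX (hP2 d)
    rw [← hB] at hb
    have hed : ‖((e d / T : ℝ) : ℂ)‖ ≤ 1 := by
      rw [Complex.norm_real, Real.norm_eq_abs, abs_div, abs_of_pos hT0, div_le_one hT0]
      exact (he d).trans hT1
    have hbox : ‖∑ m ∈ Ioc P1 Q1, (((if om = 0 then 1 else Real.log m / T : ℝ)) : ℂ) *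
        ∑ c ∈ Ioc (P2 d) (Q2 d), Ek a t q (d * (m * c))‖ ≤ 4 * T ^ 4 * B := by
      by_cases hom : om = 0
      · have h2 : ∑ m ∈ Ioc P1 Q1, (((if om = 0 then 1 else Real.log m / T : ℝ)) : ℂ) *
            ∑ c ∈ Ioc (P2 d) (Q2 d), Ek a t q (d * (m * c)) =
            ∑ m ∈ Ioc P1 Q1, ∑ c ∈ Ioc (P2 d) (Q2 d), Ek a t q (d * (m * c)) := by
          apply Finset.sum_congr rfl
          intro m _
          rw [if_pos hom, Complex.ofReal_one, one_mul]
        rw [h2]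
        refine hb.1.trans ?_
        have : 0 ≤ T ^ 4 * B := mul_nonneg hT4 hB0
        linarith
      · have h2 : ∑ m ∈ Ioc P1 Q1, (((if om = 0 then 1 else Real.log m / T : ℝ)) : ℂ) *
            ∑ c ∈ Ioc (P2 d) (Q2 d), Ek a t q (d * (m * c)) =
            ((1 / T : ℝ) : ℂ) * ∑ m ∈ Ioc P1 Q1, ((Real.log m : ℝ) : ℂ) *
              ∑ c ∈ Ioc (P2 d) (Q2 d), Ek a t q (d * (m * c)) := by
          rw [Finset.mul_sum]
          apply Finset.sum_congr rfl
          intro m _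
          rw [if_neg hom, div_eq_mul_one_div, Complex.ofReal_mul]
          ring
        rw [h2, norm_mul, Complex.norm_real, Real.norm_eq_abs, abs_of_pos (by positivity)]
        have h3 : 1 / T * ‖∑ m ∈ Ioc P1 Q1, ((Real.log m : ℝ) : ℂ) *
              ∑ c ∈ Ioc (P2 d) (Q2 d), Ek a t q (d * (m * c))‖ ≤ 1 / T * (4 * T ^ 5 * B) :=
          mul_le_mul_of_nonneg_left hb.2 (by positivity)
        refine h3.trans (le_of_eq ?_)
        field_simp
    rw [norm_mul]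
    calc ‖((e d / T : ℝ) : ℂ)‖ * _ ≤ 1 * (4 * T ^ 4 * B) :=
          mul_le_mul hed hbox (norm_nonneg _) zero_le_one
      _ = 4 * T ^ 4 * B := one_mul _
  refine (norm_sum_le _ _).trans ((Finset.sum_le_sum hone).trans ?_)
  rw [Finset.sum_const, Nat.card_Icc, nsmul_eq_mul, Nat.add_sub_cancel]
  have hfin : 4 * T ^ 4 * B ≤ 4 * T ^ 4 * B' := mul_le_mul_of_nonneg_left hBB (by positivity)
  calc (U : ℝ) * (4 * T ^ 4 * B) ≤ U * (4 * T ^ 4 * B') := mul_le_mul_of_nonneg_left hfin (Nat.cast_nonneg _)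
    _ = 4 * T ^ 4 * U * B' := by ring

end Pool.Agent.Lib.NLA
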