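import Pool.Agent.Lib.NLA.Spec

/-!
MP_00e23e_nt, project NL, chapter A', module Acv: bounds and supports of the convolutions.
-/

set_option autoImplicit false

namespace Pool.Agent.Lib.NLA

open Finset Pool.Agent.Lib.EH3 Pool.Agent.Lib.TB Pool.Agent.Results.MP_00e23e_nt Pool.Agent.Lib.MI
open Pool.Agent.Lib.MX (Bd Mz Bd_nonneg Bd_mono rp_le rn_le log_le_T Tau_x)

/-- bound of a convolution -/
private lemma Acv_mul {X T : ℝ} (hT : Tau X T) (f g : ArithmeticFunction ℝ) (A B : ℝ) (hA : 0 ≤ A) (hB : 0 ≤ B)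
    (hf : ∀ n : ℕ, 1 ≤ n → (n : ℝ) ≤ X → |f n| ≤ A) (hg : ∀ n : ℕ, 1 ≤ n → (n : ℝ) ≤ X → |g n| ≤ B)
    (n : ℕ) (hn : 1 ≤ n) (hnX : (n : ℝ) ≤ X) : |(f * g) n| ≤ T * A * B := by
  rw [ArithmeticFunction.mul_apply]
  have h1 : |∑ p ∈ n.divisorsAntidiagonal, f p.1 * g p.2| ≤ ∑ p ∈ n.divisorsAntidiagonal, A * B := by
    refine (Finset.abs_sum_le_sum_abs _ _).trans (Finset.sum_le_sum ?_)
    intro p hp
    rw [Nat.mem_divisorsAntidiagonal] at hp
    have hp1 : 1 ≤ p.1 := Nat.one_le_iff_ne_zero.2 (fun h => hp.2 (by rw [← hp.1, h, Nat.zero_mul]))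
    have hp2 : 1 ≤ p.2 := Nat.one_le_iff_ne_zero.2 (fun h => hp.2 (by rw [← hp.1, h, Nat.mul_zero]))
    have hle1 : p.1 ≤ n := by rw [← hp.1]; exact Nat.le_mul_of_pos_right _ hp2
    have hle2 : p.2 ≤ n := by rw [← hp.1]; exact Nat.le_mul_of_pos_left _ hp1
    have hx1 : (p.1 : ℝ) ≤ X := le_trans (by exact_mod_cast hle1) hnX
    have hx2 : (p.2 : ℝ) ≤ X := le_trans (by exact_mod_cast hle2) hnX
    rw [abs_mul]
    exact mul_le_mul (hf _ hp1 hx1) (hg _ hp2 hx2) (abs_nonneg _) hA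
  refine h1.trans ?_
  rw [Finset.sum_const, nsmul_eq_mul]
  have hc : ((n.divisorsAntidiagonal.card : ℕ) : ℝ) ≤ T := by
    have : n.divisorsAntidiagonal.card = n.divisors.card := by
      rw [← Nat.map_div_right_divisors, Finset.card_map]
    rw [this]
    exact hT.2.2 n hn hnX
  calc ((n.divisorsAntidiagonal.card : ℕ) : ℝ) * (A * B) ≤ T * (A * B) :=
        mul_le_mul_of_nonneg_right hc (mul_nonneg hA hB)
    _ = T * A * B := by ring

private lemma Acv_sub (f g : ArithmeticFunction ℝ) (n : ℕ) : (f - g) n = f n - g n := by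
  have h : (f - g + g) n = f n := by rw [sub_add_cancel]
  rw [ArithmeticFunction.add_apply] at h
  linarith

/-- support of a convolution -/
private lemma Acv_supp (f g : ArithmeticFunction ℝ) (U V : ℕ) (hf : ∀ n : ℕ, U < n → f n = 0)
    (hg : ∀ n : ℕ, V < n → g n = 0) (n : ℕ) (hn : U * V < n) : (f * g) n = 0 := by
  rw [ArithmeticFunction.mul_apply]
  apply Finset.sum_eq_zero
  intro p hp
  rw [Nat.mem_divisorsAntidiagonal] at hp
  by_cases h1 : U < p.1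
  · rw [hf _ h1, zero_mul]
  · by_cases h2 : V < p.2
    · rw [hg _ h2, mul_zero]
    · exfalso
      have := Nat.mul_le_mul (not_lt.1 h1) (not_lt.1 h2)
      rw [hp.1] at this
      omega

private lemma Acv_am_app (u n : ℕ) :
    am u n = if n ≤ u then ((ArithmeticFunction.moebius n : ℤ) : ℝ) else 0 := rfl

private lemma Acv_zt_app (u w n : ℕ) : zt u w n = if u < n ∧ n ≤ w then (1 : ℝ) else 0 := rfl

private lemma Acv_lt_app (u w n : ℕ) : lt u w n = if u < n ∧ n ≤ w then Real.log n else 0 := rfl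

private lemma Acv_zB_app (w n : ℕ) : zB w n = if w < n then (1 : ℝ) else 0 := rfl

private lemma Acv_am (u n : ℕ) : |am u n| ≤ 1 := by
  rw [Acv_am_app]
  split_ifs
  · have h : |ArithmeticFunction.moebius n| ≤ 1 := ArithmeticFunction.abs_moebius_le_one
    have h' : ((|ArithmeticFunction.moebius n| : ℤ) : ℝ) ≤ ((1 : ℤ) : ℝ) := Int.cast_le.2 h
    rw [Int.cast_abs, Int.cast_one] at h'
    exact h'
  · rw [abs_zero]; exact zero_le_one

private lemma Acv_zt (u w n : ℕ) : |zt u w n| ≤ 1 := by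
  rw [Acv_zt_app]
  split_ifs
  · rw [abs_one]
  · rw [abs_zero]; exact zero_le_one

private lemma Acv_zB (w n : ℕ) : |zB w n| ≤ 1 := by
  rw [Acv_zB_app]
  split_ifs
  · rw [abs_one]
  · rw [abs_zero]; exact zero_le_one

private lemma Acv_one (n : ℕ) : |(1 : ArithmeticFunction ℝ) n| ≤ 1 := by
  rw [ArithmeticFunction.one_apply]
  split_ifs
  · rw [abs_one]
  · rw [abs_zero]; exact zero_le_one

private lemma Acv_log {X T : ℝ} (hT : Tau X T) (n : ℕ) (hn : 1 ≤ n) (hnX : (n : ℝ) ≤ X) :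
    0 ≤ Real.log n ∧ Real.log n ≤ T := by
  have h1 : (1 : ℝ) ≤ n := by exact_mod_cast hn
  refine ⟨Real.log_nonneg h1, ?_⟩
  have h2 := Real.log_le_log (by linarith) hnX
  have h3 := hT.2.1
  linarith

private lemma Acv_lt {X T : ℝ} (hT : Tau X T) (u w n : ℕ) (hn : 1 ≤ n) (hnX : (n : ℝ) ≤ X) :
    |lt u w n| ≤ T := by
  have h := Acv_log hT n hn hnX
  rw [Acv_lt_app]
  split_ifs
  · rw [abs_of_nonneg h.1]; exact h.2
  · rw [abs_zero]; exact zero_le_one.trans hT.1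

private lemma Acv_La {X T : ℝ} (hT : Tau X T) (n : ℕ) (hn : 1 ≤ n) (hnX : (n : ℝ) ≤ X) :
    |ArithmeticFunction.vonMangoldt n| ≤ T := by
  have h := Acv_log hT n hn hnX
  rw [abs_of_nonneg ArithmeticFunction.vonMangoldt_nonneg]
  exact ArithmeticFunction.vonMangoldt_le_log.trans h.2

/-- for n ≤ u the convolution of am and zt 0 u is the identity -/
private lemma Acv_inv (u n : ℕ) (hn : n ≤ u) : (am u * zt 0 u) n = (1 : ArithmeticFunction ℝ) n := by
  rw [← ArithmeticFunction.coe_moebius_mul_coe_zeta (R := ℝ), ArithmeticFunction.mul_apply,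
    ArithmeticFunction.mul_apply]
  apply Finset.sum_congr rfl
  intro p hp
  rw [Nat.mem_divisorsAntidiagonal] at hp
  have hp1 : 1 ≤ p.1 := Nat.one_le_iff_ne_zero.2 (fun h => hp.2 (by rw [← hp.1, h, Nat.zero_mul]))
  have hp2 : 1 ≤ p.2 := Nat.one_le_iff_ne_zero.2 (fun h => hp.2 (by rw [← hp.1, h, Nat.mul_zero]))
  have hle1 : p.1 ≤ n := by rw [← hp.1]; exact Nat.le_mul_of_pos_right _ hp2
  have hle2 : p.2 ≤ n := by rw [← hp.1]; exact Nat.le_mul_of_pos_left _ hp1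
  rw [Acv_am_app, Acv_zt_app, if_pos (hle1.trans hn), if_pos ⟨hp2, hle2.trans hn⟩,
    ArithmeticFunction.intCoe_apply, ArithmeticFunction.natCoe_apply,
    ArithmeticFunction.zeta_apply_ne (Nat.one_le_iff_ne_zero.1 hp2), Nat.cast_one]

theorem tAcv : AcvStmt := by
  intro X T u w hT hu
  have hT1 : (1 : ℝ) ≤ T := hT.1
  have hT0 : (0 : ℝ) ≤ T := zero_le_one.trans hT1
  have hmul := fun (f g : ArithmeticFunction ℝ) (A B : ℝ) => Acv_mul hT f g A B
  have hpw : ∀ a b : ℕ, a ≤ b → T ^ a ≤ T ^ b := fun a b hab => pow_le_pow_right₀ hT1 hab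
  -- the single bounds
  have bam : ∀ n : ℕ, 1 ≤ n → (n : ℝ) ≤ X → |am u n| ≤ 1 := fun n _ _ => Acv_am u n
  have bzB : ∀ n : ℕ, 1 ≤ n → (n : ℝ) ≤ X → |zB w n| ≤ 1 := fun n _ _ => Acv_zB w n
  have bzt : ∀ n : ℕ, 1 ≤ n → (n : ℝ) ≤ X → |zt 0 u n| ≤ 1 := fun n _ _ => Acv_zt 0 u n
  have blt0 : ∀ n : ℕ, 1 ≤ n → (n : ℝ) ≤ X → |lt 0 u n| ≤ T := fun n h1 h2 => Acv_lt hT 0 u n h1 h2
  have bLa : ∀ n : ℕ, 1 ≤ n → (n : ℝ) ≤ X → |ArithmeticFunction.vonMangoldt n| ≤ T :=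
    fun n h1 h2 => Acv_La hT n h1 h2
  have bam2 : ∀ n : ℕ, 1 ≤ n → (n : ℝ) ≤ X → |(am u ^ 2) n| ≤ T := by
    intro n h1 h2
    have := hmul (am u) (am u) 1 1 zero_le_one zero_le_one bam bam n h1 h2
    rw [pow_two]
    linarith
  have bam3 : ∀ n : ℕ, 1 ≤ n → (n : ℝ) ≤ X → |(am u ^ 3) n| ≤ T ^ 2 := by
    intro n h1 h2
    have := hmul (am u ^ 2) (am u) T 1 hT0 zero_le_one bam2 bam n h1 h2
    rw [pow_succ]
    calc |(am u ^ 2 * am u) n| ≤ T * T * 1 := this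
      _ = T ^ 2 := by ring
  have bzB2 : ∀ n : ℕ, 1 ≤ n → (n : ℝ) ≤ X → |(zB w ^ 2) n| ≤ T := by
    intro n h1 h2
    have := hmul (zB w) (zB w) 1 1 zero_le_one zero_le_one bzB bzB n h1 h2
    rw [pow_two]
    linarith
  have b1 : ∀ n : ℕ, 1 ≤ n → (n : ℝ) ≤ X → |(am u ^ 2 * zB w) n| ≤ T ^ 2 := by
    intro n h1 h2
    have := hmul (am u ^ 2) (zB w) T 1 hT0 zero_le_one bam2 bzB n h1 h2
    calc |(am u ^ 2 * zB w) n| ≤ T * T * 1 := this
      _ = T ^ 2 := by ring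
  have b2 : ∀ n : ℕ, 1 ≤ n → (n : ℝ) ≤ X → |(am u ^ 3 * zB w ^ 2) n| ≤ T ^ 4 := by
    intro n h1 h2
    have := hmul (am u ^ 3) (zB w ^ 2) (T ^ 2) T (pow_nonneg hT0 2) hT0 bam3 bzB2 n h1 h2
    calc |(am u ^ 3 * zB w ^ 2) n| ≤ T * T ^ 2 * T := this
      _ = T ^ 4 := by ring
  have b3 : ∀ n : ℕ, 1 ≤ n → (n : ℝ) ≤ X → |(am u * zB w) n| ≤ T := by
    intro n h1 h2
    have := hmul (am u) (zB w) 1 1 zero_le_one zero_le_one bam bzB n h1 h2
    linarith
  have b4 : ∀ n : ℕ, 1 ≤ n → (n : ℝ) ≤ X → |(am u ^ 2 * zB w ^ 2) n| ≤ T ^ 3 := by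
    intro n h1 h2
    have := hmul (am u ^ 2) (zB w ^ 2) T T hT0 hT0 bam2 bzB2 n h1 h2
    calc |(am u ^ 2 * zB w ^ 2) n| ≤ T * T * T := this
      _ = T ^ 3 := by ring
  have bG : ∀ n : ℕ, 1 ≤ n → (n : ℝ) ≤ X → |gG u w n| ≤ 3 * T ^ 4 := by
    intro n h1 h2
    have e : gG u w n = am u n - (am u ^ 2 * zB w) n + (am u ^ 3 * zB w ^ 2) n := by
      rw [gG, ArithmeticFunction.add_apply, Acv_sub]
    rw [e]
    have := abs_add_le (am u n - (am u ^ 2 * zB w) n) ((am u ^ 3 * zB w ^ 2) n)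
    have h' := abs_sub (am u n) ((am u ^ 2 * zB w) n)
    have a1 := bam n h1 h2
    have a2 := b1 n h1 h2
    have a3 := b2 n h1 h2
    have p1 := hpw 2 4 (by norm_num)
    have p0 := hpw 0 4 (by norm_num)
    rw [pow_zero] at p0
    linarith
  have bE' : ∀ n : ℕ, 1 ≤ n → (n : ℝ) ≤ X → |(1 - am u * zB w + am u ^ 2 * zB w ^ 2 : ArithmeticFunction ℝ) n| ≤ 3 * T ^ 3 := by
    intro n h1 h2
    have e : (1 - am u * zB w + am u ^ 2 * zB w ^ 2 : ArithmeticFunction ℝ) n =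
        (1 : ArithmeticFunction ℝ) n - (am u * zB w) n + (am u ^ 2 * zB w ^ 2) n := by
      rw [ArithmeticFunction.add_apply, Acv_sub]
    rw [e]
    have := abs_add_le ((1 : ArithmeticFunction ℝ) n - (am u * zB w) n) ((am u ^ 2 * zB w ^ 2) n)
    have h' := abs_sub ((1 : ArithmeticFunction ℝ) n) ((am u * zB w) n)
    have a1 := Acv_one n
    have a2 := b3 n h1 h2
    have a3 := b4 n h1 h2
    have p1 := hpw 1 3 (by norm_num)
    have p0 := hpw 0 3 (by norm_num)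
    rw [pow_zero] at p0
    rw [pow_one] at p1
    linarith
  have hpos : ∀ k : ℕ, (0 : ℝ) ≤ 3 * T ^ k := fun k => mul_nonneg (by norm_num) (pow_nonneg hT0 k)
  refine ⟨fun f g A B hA hB hf hg n h1 h2 => Acv_mul hT f g A B hA hB hf hg n h1 h2, ?_, ?_, ?_, ?_, ?_⟩
  · intro n h1 h2
    refine ⟨bG n h1 h2, ?_, ?_, ?_, Acv_lt hT u w n h1 h2, blt0 n h1 h2, bam n h1 h2, bam2 n h1 h2, ?_, ?_⟩
    · have := hmul (1 - am u * zB w + am u ^ 2 * zB w ^ 2) ArithmeticFunction.vonMangoldt (3 * T ^ 3) T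
        (hpos 3) hT0 bE' bLa n h1 h2
      rw [gE]
      refine this.trans (le_of_eq ?_)
      ring
    · have := hmul (gG u w) ArithmeticFunction.vonMangoldt (3 * T ^ 4) T (hpos 4) hT0 bG bLa n h1 h2
      refine this.trans (le_of_eq ?_)
      ring
    · have e : eE u n = (am u * zt 0 u) n - (1 : ArithmeticFunction ℝ) n := by
        rw [eE, Acv_sub]
      rw [e]
      have h' := abs_sub ((am u * zt 0 u) n) ((1 : ArithmeticFunction ℝ) n)
      have a1 := hmul (am u) (zt 0 u) 1 1 zero_le_one zero_le_one bam bzt n h1 h2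
      have a2 := Acv_one n
      linarith
    · have := hmul (am u ^ 2) (lt 0 u) T T hT0 hT0 bam2 blt0 n h1 h2
      refine this.trans (le_of_eq ?_)
      ring
    · have := hmul (am u ^ 3) (lt 0 u) (T ^ 2) T (pow_nonneg hT0 2) hT0 bam3 blt0 n h1 h2
      refine this.trans (le_of_eq ?_)
      ring
  all_goals
    have sam : ∀ n : ℕ, u < n → am u n = 0 := fun n hn => by
      rw [Acv_am_app, if_neg (not_le.2 hn)]
    have szt : ∀ n : ℕ, u < n → zt 0 u n = 0 := fun n hn => by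
      rw [Acv_zt_app, if_neg (fun h => absurd h.2 (not_le.2 hn))]
    have slt : ∀ n : ℕ, u < n → lt 0 u n = 0 := fun n hn => by
      rw [Acv_lt_app, if_neg (fun h => absurd h.2 (not_le.2 hn))]
    have sam2 : ∀ n : ℕ, u * u < n → (am u ^ 2) n = 0 := fun n hn => by
      rw [pow_two]; exact Acv_supp (am u) (am u) u u sam sam n hn
    have sam3 : ∀ n : ℕ, u * u * u < n → (am u ^ 3) n = 0 := fun n hn => by
      rw [pow_succ]; exact Acv_supp (am u ^ 2) (am u) (u * u) u sam2 sam n hn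
  · intro n hn
    have e : eE u n = (am u * zt 0 u) n - (1 : ArithmeticFunction ℝ) n := by
      rw [eE, Acv_sub]
    rcases hn with hn | hn
    · rw [e, Acv_inv u n hn, sub_self]
    · have h1 : n ≠ 1 := by
        have : 1 ≤ u ^ 2 := Nat.one_le_pow _ _ hu
        omega
      rw [e, Acv_supp (am u) (zt 0 u) u u sam szt n (by rw [← pow_two]; exact hn),
        ArithmeticFunction.one_apply_ne h1, sub_self]
  · intro n hn
    exact sam2 n (by rw [← pow_two]; exact hn)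
  · intro n hn
    exact Acv_supp (am u ^ 2) (lt 0 u) (u * u) u sam2 slt n (by
      have : u * u * u = u ^ 3 := by ring
      rw [this]; exact hn)
  · intro n hn
    exact Acv_supp (am u ^ 3) (lt 0 u) (u * u * u) u sam3 slt n (by
      have : u * u * u * u = u ^ 4 := by ring
      rw [this]; exact hn)

end Pool.Agent.Lib.NLA
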