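import Pool.Agent.Lib.NLA.Spec

/-!
MP_00e23e_nt, project NL, chapter A', module Aid: the identity for the von Mangoldt function.
-/

set_option autoImplicit false

namespace Pool.Agent.Lib.NLA

open Finset Pool.Agent.Lib.EH3 Pool.Agent.Lib.TB Pool.Agent.Results.MP_00e23e_nt Pool.Agent.Lib.MI
open Pool.Agent.Lib.MX (Bd Mz Bd_nonneg Bd_mono rp_le rn_le log_le_T Tau_x)

private lemma Aid_sub_apply (A B : ArithmeticFunction ℝ) (n : ℕ) : (A - B) n = A n - B n := by
  have h : ((A - B) + B) n = A n := by rw [sub_add_cancel]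
  rw [ArithmeticFunction.add_apply] at h
  linarith

/-- the sum over n ≤ Y of h n F n -/
private noncomputable def Aid_S (Y : ℕ) (F : ℕ → ℂ) (h : ArithmeticFunction ℝ) : ℂ :=
  ∑ n ∈ Icc 1 Y, ((h n : ℝ) : ℂ) * F n

private lemma Aid_S_add (Y : ℕ) (F : ℕ → ℂ) (g h : ArithmeticFunction ℝ) :
    Aid_S Y F (g + h) = Aid_S Y F g + Aid_S Y F h := by
  unfold Aid_S
  rw [← sum_add_distrib]
  refine sum_congr rfl fun n _ => ?_
  rw [ArithmeticFunction.add_apply, Complex.ofReal_add]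
  ring

private lemma Aid_S_sub (Y : ℕ) (F : ℕ → ℂ) (g h : ArithmeticFunction ℝ) :
    Aid_S Y F (g - h) = Aid_S Y F g - Aid_S Y F h := by
  unfold Aid_S
  rw [← sum_sub_distrib]
  refine sum_congr rfl fun n _ => ?_
  rw [Aid_sub_apply, Complex.ofReal_sub]
  ring

private lemma Aid_sum (F : ℕ → ℂ) (A B : ArithmeticFunction ℝ) (Y : ℕ) :
    Aid_S Y F (A * B) = CS Y A B F := by
  unfold Aid_S CS
  have h1 : ∑ n ∈ Icc 1 Y, (((A * B) n : ℝ) : ℂ) * F n =
      ∑ n ∈ Icc 1 Y, ∑ x ∈ n.divisorsAntidiagonal,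
        ((A x.1 : ℝ) : ℂ) * ((B x.2 : ℝ) : ℂ) * F (x.1 * x.2) := by
    refine Finset.sum_congr rfl fun n _ => ?_
    rw [ArithmeticFunction.mul_apply, Complex.ofReal_sum, Finset.sum_mul]
    refine Finset.sum_congr rfl fun x hx => ?_
    rw [(Nat.mem_divisorsAntidiagonal.mp hx).1, Complex.ofReal_mul]
  rw [h1, Finset.sum_sigma', Finset.sum_sigma']
  refine Finset.sum_bij' (fun x _ => (⟨x.2.1, x.2.2⟩ : Σ _ : ℕ, ℕ))
    (fun y _ => (⟨y.1 * y.2, (y.1, y.2)⟩ : Σ _ : ℕ, ℕ × ℕ)) ?_ ?_ ?_ ?_ ?_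
  · rintro ⟨n, b, c⟩ hx
    rw [Finset.mem_sigma, Finset.mem_Icc, Nat.mem_divisorsAntidiagonal] at hx
    obtain ⟨⟨h3, h4⟩, h5, h6⟩ := hx
    dsimp only at h3 h4 h5 h6
    have hb : 0 < b := by
      rcases Nat.eq_zero_or_pos b with h | h
      · rw [h, zero_mul] at h5
        omega
      · exact h
    have hc : 0 < c := by
      rcases Nat.eq_zero_or_pos c with h | h
      · rw [h, mul_zero] at h5
        omega
      · exact h
    rw [Finset.mem_sigma, Finset.mem_Icc, Finset.mem_Icc]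
    dsimp only
    have h7 : b ≤ b * c := Nat.le_mul_of_pos_right b hc
    refine ⟨⟨hb, by omega⟩, hc, ?_⟩
    rw [Nat.le_div_iff_mul_le hb, mul_comm]
    omega
  · rintro ⟨b, c⟩ hy
    rw [Finset.mem_sigma, Finset.mem_Icc, Finset.mem_Icc] at hy
    obtain ⟨⟨h3, h4⟩, h5, h6⟩ := hy
    dsimp only at h3 h4 h5 h6
    rw [Nat.le_div_iff_mul_le (by omega), mul_comm] at h6
    have h8 : 0 < b * c := Nat.mul_pos (by omega) (by omega)
    rw [Finset.mem_sigma, Finset.mem_Icc, Nat.mem_divisorsAntidiagonal]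
    exact ⟨⟨h8, h6⟩, rfl, h8.ne'⟩
  · rintro ⟨n, b, c⟩ hx
    rw [Finset.mem_sigma, Finset.mem_Icc, Nat.mem_divisorsAntidiagonal] at hx
    obtain ⟨_, h5, h6⟩ := hx
    dsimp only at h5 ⊢
    subst h5
    rfl
  · rintro ⟨b, c⟩ _
    rfl
  · rintro ⟨n, b, c⟩ _
    rfl

/-- products vanish at small arguments -/
private lemma Aid_van (f g : ArithmeticFunction ℝ) (a b : ℕ) (hf : ∀ n < a, f n = 0)
    (hg : ∀ n < b, g n = 0) : ∀ n < a * b, (f * g) n = 0 := by
  intro n hn
  rw [ArithmeticFunction.mul_apply]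
  refine sum_eq_zero fun x hx => ?_
  have h1 := (Nat.mem_divisorsAntidiagonal.mp hx).1
  by_cases h2 : x.1 < a
  · rw [hf _ h2, zero_mul]
  · by_cases h3 : x.2 < b
    · rw [hg _ h3, mul_zero]
    · exfalso
      have h4 : a * b ≤ x.1 * x.2 := Nat.mul_le_mul (by omega) (by omega)
      omega

private lemma Aid_S_van (Y : ℕ) (F : ℕ → ℂ) (h : ArithmeticFunction ℝ) (a : ℕ) (hY : Y < a)
    (hh : ∀ n < a, h n = 0) : Aid_S Y F h = 0 := by
  unfold Aid_S
  refine sum_eq_zero fun n hn => ?_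
  rw [mem_Icc] at hn
  rw [hh n (by omega), Complex.ofReal_zero, zero_mul]

private lemma Aid_one (f : ArithmeticFunction ℝ) : ∀ n < 1, f n = 0 := by
  intro n hn
  rw [show n = 0 by omega]
  exact ArithmeticFunction.map_zero

private lemma Aid_zeta (u w : ℕ) (huw : u ≤ w) :
    ((ArithmeticFunction.zeta : ArithmeticFunction ℕ) : ArithmeticFunction ℝ) =
      zt 0 u + zt u w + zB w := by
  ext n
  rw [ArithmeticFunction.add_apply, ArithmeticFunction.add_apply, ArithmeticFunction.natCoe_apply,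
    ArithmeticFunction.zeta_apply]
  change (((if n = 0 then 0 else 1 : ℕ)) : ℝ) = (if 0 < n ∧ n ≤ u then 1 else 0) +
    (if u < n ∧ n ≤ w then 1 else 0) + (if w < n then 1 else 0)
  by_cases h0 : n = 0
  · rw [if_pos h0, if_neg (by omega), if_neg (by omega), if_neg (by omega)]
    simp
  · rw [if_neg h0]
    by_cases h1 : n ≤ u
    · rw [if_pos (by omega), if_neg (by omega), if_neg (by omega)]
      simp
    · by_cases h2 : n ≤ w
      · rw [if_neg (by omega), if_pos (by omega), if_neg (by omega)]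
        simp
      · rw [if_neg (by omega), if_neg (by omega), if_pos (by omega)]
        simp

private lemma Aid_log (u w : ℕ) (huw : u ≤ w) :
    ArithmeticFunction.log = lt 0 u + lt u w + lB w := by
  ext n
  rw [ArithmeticFunction.add_apply, ArithmeticFunction.add_apply, ArithmeticFunction.log_apply]
  change Real.log n = (if 0 < n ∧ n ≤ u then Real.log n else 0) +
    (if u < n ∧ n ≤ w then Real.log n else 0) + (if w < n then Real.log n else 0)
  by_cases h0 : n = 0
  · rw [if_neg (by omega), if_neg (by omega), if_neg (by omega), h0]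
    simp
  · by_cases h1 : n ≤ u
    · rw [if_pos (by omega), if_neg (by omega), if_neg (by omega)]
      simp
    · by_cases h2 : n ≤ w
      · rw [if_neg (by omega), if_pos (by omega), if_neg (by omega)]
        simp
      · rw [if_neg (by omega), if_neg (by omega), if_pos (by omega)]
        simp

/-- the identity in a commutative ring -/
private lemma Aid_ring {A : Type} [CommRing A] (a z0 z zb l0 l lb L ζ lg E : A)
    (hE : E = a * z0 - 1) (hζ : ζ = z0 + z + zb) (hl : lg = l0 + l + lb) (hL : L * ζ = lg) :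
    L = (l * (a - a ^ 2 * zb + a ^ 3 * zb ^ 2) - E * ((1 - a * zb + a ^ 2 * zb ^ 2) * L) -
        z * ((a - a ^ 2 * zb + a ^ 3 * zb ^ 2) * L)) +
      (a * l0 + a * lb - a ^ 2 * l0 * zb) +
      (zb * (a ^ 3 * l0 * zb) - lb * (a ^ 2 * zb)) +
      (a ^ 3 * (zb * zb * lb) - a ^ 3 * L * (zb * zb * zb)) := by
  have h1 : L * (z0 + z + zb) = l0 + l + lb := by rw [← hζ, hL, hl]
  rw [hE]
  linear_combination (a - a ^ 2 * zb + a ^ 3 * zb ^ 2) * h1

theorem tAid : AidStmt := by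
  intro u w Y F hu huw hY
  have hid := Aid_ring (am u) (zt 0 u) (zt u w) (zB w) (lt 0 u) (lt u w) (lB w)
    ArithmeticFunction.vonMangoldt
    ((ArithmeticFunction.zeta : ArithmeticFunction ℕ) : ArithmeticFunction ℝ)
    ArithmeticFunction.log (eE u) rfl (Aid_zeta u w huw) (Aid_log u w huw)
    ArithmeticFunction.vonMangoldt_mul_zeta
  have hzB : ∀ n < w + 1, zB w n = 0 := by
    intro n hn
    change (if w < n then (1 : ℝ) else 0) = 0
    rw [if_neg (by omega)]
  have hlB : ∀ n < w + 1, lB w n = 0 := by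
    intro n hn
    change (if w < n then Real.log n else 0) = 0
    rw [if_neg (by omega)]
  have hY' : Y < 1 * ((w + 1) * (w + 1) * (w + 1)) := by
    have h1 : 1 * ((w + 1) * (w + 1) * (w + 1)) = (w + 1) ^ 3 := by ring
    omega
  have v1 : Aid_S Y F (am u ^ 3 * (zB w * zB w * lB w)) = 0 :=
    Aid_S_van Y F _ _ hY' (Aid_van _ _ _ _ (Aid_one _)
      (Aid_van _ _ _ _ (Aid_van _ _ _ _ hzB hzB) hlB))
  have v2 : Aid_S Y F (am u ^ 3 * ArithmeticFunction.vonMangoldt * (zB w * zB w * zB w)) = 0 :=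
    Aid_S_van Y F _ _ hY' (Aid_van _ _ _ _ (Aid_one _)
      (Aid_van _ _ _ _ (Aid_van _ _ _ _ hzB hzB) hzB))
  have h2 : ∑ n ∈ Icc 1 Y, ((ArithmeticFunction.vonMangoldt n : ℝ) : ℂ) * F n =
      Aid_S Y F ArithmeticFunction.vonMangoldt := rfl
  have h3 := congrArg (Aid_S Y F) hid
  simp only [Aid_S_add, Aid_S_sub] at h3
  rw [v1, v2, sub_zero, add_zero] at h3
  simp only [Aid_sum] at h3
  rw [h2, h3]
  rfl

end Pool.Agent.Lib.NLA
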