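import Pool.Agent.Lib.NLA.Spec
import Pool.Agent.Lib.SLN.AllI2
import Pool.Agent.Lib.SL.Ewa
import Pool.Agent.Lib.EH3.LS2

/-!
MP_00e23e_nt, project NL, chapter A', module Akb (helper54): the box, full congruences, weight 1.
-/

namespace Pool.Agent.Lib.NLA

open Finset Pool.Agent.Lib.EH3 Pool.Agent.Lib.TB Pool.Agent.Results.MP_00e23e_nt Pool.Agent.Lib.MI

/-- exactly one residue -/
private lemma Akb_one (k : ℕ) (a c l2 l2' : ℤ) (hk : 1 ≤ k) (hl : (k : ℤ) ∣ l2 * l2' - 1) :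
    ∑ x ∈ range k, (if (k : ℤ) ∣ a - l2 * x then en (c * x) k else 0) =
      en (c * (a * l2')) k := by
  have hk0 : (0 : ℤ) < k := by exact_mod_cast hk
  have h0 : 0 ≤ (a * l2') % (k : ℤ) := Int.emod_nonneg _ hk0.ne'
  have h1 : (a * l2') % (k : ℤ) < k := Int.emod_lt_of_pos _ hk0
  obtain ⟨x0, hx0⟩ := Int.eq_ofNat_of_zero_le h0
  have hx0k : x0 < k := by
    rw [hx0] at h1
    exact_mod_cast h1
  have hdx0 : (k : ℤ) ∣ a * l2' - x0 := by
    rw [← hx0]
    exact Int.dvd_self_sub_emod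
  have hiff : ∀ x : ℤ, (k : ℤ) ∣ a - l2 * x ↔ (k : ℤ) ∣ a * l2' - x := by
    intro x
    constructor
    · intro h
      have h2 := (h.mul_left l2').add (hl.mul_left x)
      have e : l2' * (a - l2 * x) + x * (l2 * l2' - 1) = a * l2' - x := by ring
      rwa [e] at h2
    · intro h
      have h2 := (h.mul_left l2).sub (hl.mul_left a)
      have e : l2 * (a * l2' - x) - a * (l2 * l2' - 1) = a - l2 * x := by ring
      rwa [e] at h2
  rw [sum_eq_single x0]
  · rw [if_pos ((hiff x0).2 hdx0)]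
    apply en_congr
    have e : c * (x0 : ℤ) - c * (a * l2') = -c * (a * l2' - x0) := by ring
    rw [e]
    exact hdx0.mul_left _
  · intro x hx hne
    rw [if_neg]
    intro h
    apply hne
    have h2 := (hiff x).1 h
    have h3 : (k : ℤ) ∣ (x : ℤ) - x0 := by
      have h4 := hdx0.sub h2
      have e : a * l2' - (x0 : ℤ) - (a * l2' - x) = x - x0 := by ring
      rwa [e] at h4
    have hxk := mem_range.1 hx
    have h5 : (x : ℤ) - x0 = 0 := by
      apply Int.eq_zero_of_abs_lt_dvd h3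
      rw [abs_lt]
      constructor <;> omega
    omega
  · intro h
    exact absurd (mem_range.2 hx0k) h

/-- orthogonality -/
private lemma Akb_orth (q : ℕ) (j : ℤ) (hq : 1 ≤ q) :
    ∑ l ∈ range q, en (j * l) q = if (q : ℤ) ∣ j then (q : ℂ) else 0 := by
  rw [← orth hq j]
  refine sum_congr rfl fun l _ => ?_
  unfold en
  congr 1
  push_cast
  ring

/-- the complete sum over l for a fixed k -/
private lemma Akb_k (q k : ℕ) (b j : ℤ) (hq : 1 ≤ q) (hb : Int.gcd b q = 1) :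
    ∑ l ∈ range q, (dl b q (k * l) - (if k.Coprime q then 1 / (q : ℂ) else 0)) * en (j * l) q =
      if (q : ℤ) ∣ j then 0 else t1g (j * b) q k := by
  have hqC : (q : ℂ) ≠ 0 := by exact_mod_cast (by omega : q ≠ 0)
  simp only [sub_mul]
  rw [sum_sub_distrib, ← mul_sum, Akb_orth q j hq]
  by_cases hk : k.Coprime q
  · have h1 : ∑ l ∈ range q, dl b q (k * l) * en (j * l) q = en (j * b * (iv k q : ℤ)) q := by
      have h2 := Akb_one q b j k (iv k q) hq (by
        rw [mul_comm]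
        exact iv_dvd hk hq)
      rw [show j * b * (iv k q : ℤ) = j * (b * (iv k q : ℤ)) by ring, ← h2]
      refine sum_congr rfl fun l _ => ?_
      unfold dl
      have e : (q : ℤ) ∣ ((k * l : ℕ) : ℤ) - b ↔ (q : ℤ) ∣ b - (k : ℤ) * l := by
        rw [← dvd_neg]
        have : -(((k * l : ℕ) : ℤ) - b) = b - (k : ℤ) * l := by
          push_cast
          ring
        rw [this]
      by_cases h : (q : ℤ) ∣ b - (k : ℤ) * l
      · rw [if_pos h, if_pos (e.2 h), one_mul]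
      · rw [if_neg h, if_neg (fun h' => h (e.1 h')), zero_mul]
    rw [h1, if_pos hk]
    by_cases hj : (q : ℤ) ∣ j
    · rw [if_pos hj, if_pos hj, en_of_dvd ((hj.mul_right b).mul_right _)]
      field_simp
      ring
    · rw [if_neg hj, if_neg hj, mul_zero, sub_zero]
      unfold t1g
      rw [if_pos hk]
  · have h1 : ∀ l ∈ range q, dl b q (k * l) * en (j * l) q = 0 := by
      intro l _
      unfold dl
      rw [if_neg, zero_mul]
      intro h
      apply hk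
      have h2 : Nat.gcd k q = 1 := by
        have h3 : ((Nat.gcd k q : ℕ) : ℤ) ∣ b := by
          have h4 : ((Nat.gcd k q : ℕ) : ℤ) ∣ ((k * l : ℕ) : ℤ) := by
            exact_mod_cast (Nat.gcd_dvd_left k q).mul_right l
          have h5 : ((Nat.gcd k q : ℕ) : ℤ) ∣ ((k * l : ℕ) : ℤ) - b :=
            (Int.natCast_dvd_natCast.2 (Nat.gcd_dvd_right k q)).trans h
          exact (dvd_sub_right h4).1 h5
        have h6 : ((Nat.gcd k q : ℕ) : ℤ) ∣ ((q : ℕ) : ℤ) := Int.natCast_dvd_natCast.2 (Nat.gcd_dvd_right k q)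
        have h7 : Nat.gcd k q ∣ Int.gcd b q := by
          exact_mod_cast Int.dvd_coe_gcd h3 h6
        rw [hb] at h7
        exact Nat.dvd_one.1 h7
      exact h2
    rw [sum_congr rfl h1, sum_const_zero, if_neg hk, zero_mul, sub_zero]
    unfold t1g
    rw [if_neg hk]
    split_ifs <;> rfl

/-- both signs -/
private lemma Akb_two (f : ℕ → ℝ) (hf : ∀ n, 0 ≤ f n) (J : ℕ) :
    ∑ j ∈ (Icc (-(J : ℤ)) (J : ℤ)).filter (fun a => a ≠ 0), f j.natAbs ≤ ∑ n ∈ Icc 1 J, 2 * f n := by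
  classical
  have hmaps : ∀ j ∈ (Icc (-(J : ℤ)) (J : ℤ)).filter (fun a => a ≠ 0), j.natAbs ∈ Icc 1 J := by
    intro j hj
    rw [Finset.mem_filter, Finset.mem_Icc] at hj
    rw [Finset.mem_Icc]
    omega
  rw [← Finset.sum_fiberwise_of_maps_to hmaps]
  refine Finset.sum_le_sum fun n _ => ?_
  rw [Finset.sum_congr rfl (g := fun _ => f n) (fun j hj => by rw [(Finset.mem_filter.1 hj).2]),
    Finset.sum_const, nsmul_eq_mul]
  refine mul_le_mul_of_nonneg_right ?_ (hf n)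
  have hsub : ((Icc (-(J : ℤ)) (J : ℤ)).filter (fun a => a ≠ 0)).filter (fun j => j.natAbs = n) ⊆
      {(n : ℤ), -(n : ℤ)} := by
    intro j hj
    have := (Finset.mem_filter.1 hj).2
    rw [Finset.mem_insert, Finset.mem_singleton]
    omega
  have hc := (Finset.card_le_card hsub).trans Finset.card_le_two
  exact_mod_cast hc

private lemma Akb_box (X T : ℝ) (q K1 K2 L1 L2 : ℕ) (b : ℤ) (hTau : Tau X T) (hsq : Squarefree q) (hX : (q : ℝ) ≤ X)
    (hb : Int.gcd b q = 1) (hK : K1 ≤ K2) (hL : L1 ≤ L2) :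
    ‖∑ k ∈ Ioc K1 K2, ∑ l ∈ Ioc L1 L2, (dl b q (k * l) - (if k.Coprime q then 1 / (q : ℂ) else 0))‖ ≤
      T ^ 4 * Real.sqrt q + T ^ 3 * (((K2 : ℝ) - K1) / q) := by
  have hcm := SL.tEcm
  have hA := SLN.aI2a
  have hzg := SL.aEzg
  have hq0 : q ≠ 0 := hsq.ne_zero
  have hq : 1 ≤ q := Nat.one_le_iff_ne_zero.2 hq0
  have hqR : (0 : ℝ) < q := by exact_mod_cast hq
  have hT1 : 1 ≤ T := hTau.1
  have hT0 : 0 ≤ T := by linarith
  have hΔ : 0 ≤ ((K2 : ℝ) - K1) / q := by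
    apply div_nonneg _ hqR.le
    have : (K1 : ℝ) ≤ K2 := by exact_mod_cast hK
    linarith
  obtain ⟨H, hH⟩ : ∃ H : ℕ → ℂ, H = fun l => ∑ k ∈ Ioc K1 K2,
      (dl b q (k * l) - (if k.Coprime q then 1 / (q : ℂ) else 0)) := ⟨_, rfl⟩
  have hper : ∀ l, H (l + q) = H l := by
    intro l
    rw [hH]
    refine sum_congr rfl fun k _ => ?_
    congr 1
    unfold dl
    have e : (q : ℤ) ∣ ((k * (l + q) : ℕ) : ℤ) - b ↔ (q : ℤ) ∣ ((k * l : ℕ) : ℤ) - b := by
      have : ((k * (l + q) : ℕ) : ℤ) - b = (((k * l : ℕ) : ℤ) - b) + (q : ℤ) * k := by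
        push_cast
        ring
      rw [this]
      exact dvd_add_left (dvd_mul_right _ _)
    by_cases h : (q : ℤ) ∣ ((k * l : ℕ) : ℤ) - b
    · rw [if_pos h, if_pos (e.2 h)]
    · rw [if_neg h, if_neg (fun h' => h (e.1 h'))]
  have hN : L2 ≤ L1 + (L2 - L1) := by omega
  have hmain := hcm H q (L2 - L1) L1 L2 hq hL hN hper
  have hswap : ∑ k ∈ Ioc K1 K2, ∑ l ∈ Ioc L1 L2, (dl b q (k * l) - (if k.Coprime q then 1 / (q : ℂ) else 0)) =
      ∑ l ∈ Ioc L1 L2, H l := by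
    rw [sum_comm, hH]
  rw [hswap]
  have hhE : ∀ j : ℤ, SL.hE H q j = if (q : ℤ) ∣ j then 0 else ∑ k ∈ Ioc K1 K2, t1g (j * b) q k := by
    intro j
    unfold SL.hE
    rw [hH]
    simp only [sum_mul]
    rw [sum_comm]
    rw [sum_congr rfl (fun k _ => Akb_k q k b j hq hb)]
    by_cases hj : (q : ℤ) ∣ j
    · simp only [if_pos hj, sum_const_zero]
    · simp only [if_neg hj]
  have hw0 : ∀ j : ℤ, 0 ≤ SL.wE (L2 - L1) q j := by
    intro j
    unfold SL.wE
    split_ifs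
    · positivity
    · exact le_min (by positivity) (by positivity)
  have hz1 := hzg X T q 1 1 (L2 - L1) q q 1 hTau hq le_rfl le_rfl hq (by simp) (by simp) (by simp) (by simp)
    (by simpa using hX) hX
  have hz2 : ∑ j ∈ (Icc (-(q : ℤ)) (q : ℤ)).filter (fun a => a ≠ 0), SL.wE (L2 - L1) q j * (Int.gcd j q : ℝ) ≤ T ^ 2 := by
    refine le_trans (le_of_eq ?_) hz1
    refine sum_congr rfl fun j _ => ?_
    simp
  have hz3 : ∑ j ∈ (Icc (-(q : ℤ)) (q : ℤ)).filter (fun a => a ≠ 0), SL.wE (L2 - L1) q j ≤ T := by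
    have h1 := Akb_two (fun n => SL.wE (L2 - L1) q (n : ℤ)) (fun n => hw0 _) q
    have h2 : ∑ j ∈ (Icc (-(q : ℤ)) (q : ℤ)).filter (fun a => a ≠ 0), SL.wE (L2 - L1) q j ≤
        ∑ j ∈ (Icc (-(q : ℤ)) (q : ℤ)).filter (fun a => a ≠ 0), SL.wE (L2 - L1) q ((j.natAbs : ℕ) : ℤ) := by
      refine sum_le_sum fun j hj => le_of_eq ?_
      have hj0 := (mem_filter.1 hj).2
      unfold SL.wE
      rw [if_neg hj0, if_neg (by simpa using hj0)]
      have e : |(((j.natAbs : ℕ) : ℤ) : ℝ)| = |(j : ℝ)| := by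
        rw [Int.natCast_natAbs, Int.cast_abs, abs_abs]
      rw [e]
    have h3 := (SL.tEwa (L2 - L1) q 1 q hq le_rfl hq).1
    have h4 : ∑ n ∈ Icc 1 q, 2 * SL.wE (L2 - L1) q (n : ℤ) ≤ 1 + Real.log q := by
      rw [← mul_sum]
      have h5 : ∑ n ∈ Icc 1 q, SL.wE (L2 - L1) q (n : ℤ) ≤ (1 + Real.log q) / 2 := by
        refine le_trans (le_of_eq ?_) (h3.trans (le_of_eq ?_))
        · refine sum_congr rfl fun n _ => ?_
          simp
        · simp
      linarith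
    have h5 : Real.log q ≤ Real.log X := Real.log_le_log hqR hX
    have h6 := hTau.2.1
    linarith
  refine hmain.trans ?_
  have hsplit : ∑ j ∈ Icc (-(q : ℤ)) (q : ℤ), SL.wE (L2 - L1) q j * ‖SL.hE H q j‖ ≤
      ∑ j ∈ (Icc (-(q : ℤ)) (q : ℤ)).filter (fun a => a ≠ 0), SL.wE (L2 - L1) q j *
        (T * (((K2 : ℝ) - K1) / q * (Int.gcd j q : ℝ)) + T ^ 3 * Real.sqrt q) := by
    rw [← Finset.sum_filter_add_sum_filter_not (Icc (-(q : ℤ)) (q : ℤ)) (fun a => a ≠ 0)]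
    have hz : ∑ j ∈ (Icc (-(q : ℤ)) (q : ℤ)).filter (fun a => ¬ (a ≠ 0)),
        SL.wE (L2 - L1) q j * ‖SL.hE H q j‖ = 0 := by
      refine sum_eq_zero fun j hj => ?_
      have h1 : j = 0 := by
        have := (mem_filter.1 hj).2
        rwa [not_not] at this
      rw [hhE, if_pos (by rw [h1]; exact dvd_zero _), norm_zero, mul_zero]
    rw [hz, add_zero]
    refine sum_le_sum fun j _ => mul_le_mul_of_nonneg_left ?_ (hw0 j)
    rw [hhE]
    split_ifs with hj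
    · rw [norm_zero]
      positivity
    · refine (hA X T q K1 K2 (j * b) hTau hsq hX hK).trans ?_
      have e : Int.gcd (j * b) q = Int.gcd j q := by
        have hbc : IsCoprime b (q : ℤ) := Int.isCoprime_iff_gcd_eq_one.2 hb
        apply Nat.dvd_antisymm
        · have h1 : ((Int.gcd (j * b) q : ℕ) : ℤ) ∣ j * b := Int.gcd_dvd_left _ _
          have h2 : ((Int.gcd (j * b) q : ℕ) : ℤ) ∣ (q : ℤ) := Int.gcd_dvd_right _ _
          have h3 : IsCoprime ((Int.gcd (j * b) q : ℕ) : ℤ) b := (IsCoprime.of_isCoprime_of_dvd_right hbc h2).symm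
          exact_mod_cast Int.dvd_coe_gcd (h3.dvd_of_dvd_mul_right h1) h2
        · exact_mod_cast Int.dvd_coe_gcd ((Int.gcd_dvd_left _ _).mul_right b) (Int.gcd_dvd_right j (q : ℤ))
      rw [e]
  refine hsplit.trans ?_
  have hfin : ∑ j ∈ (Icc (-(q : ℤ)) (q : ℤ)).filter (fun a => a ≠ 0), SL.wE (L2 - L1) q j *
        (T * (((K2 : ℝ) - K1) / q * (Int.gcd j q : ℝ)) + T ^ 3 * Real.sqrt q) =
      T * (((K2 : ℝ) - K1) / q) * (∑ j ∈ (Icc (-(q : ℤ)) (q : ℤ)).filter (fun a => a ≠ 0),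
        SL.wE (L2 - L1) q j * (Int.gcd j q : ℝ)) +
      T ^ 3 * Real.sqrt q * ∑ j ∈ (Icc (-(q : ℤ)) (q : ℤ)).filter (fun a => a ≠ 0), SL.wE (L2 - L1) q j := by
    rw [mul_sum, mul_sum, ← sum_add_distrib]
    refine sum_congr rfl fun j _ => ?_
    ring
  rw [hfin]
  have hs : 0 ≤ Real.sqrt (q : ℝ) := Real.sqrt_nonneg _
  calc _ ≤ T * (((K2 : ℝ) - K1) / q) * T ^ 2 + T ^ 3 * Real.sqrt q * T :=
        add_le_add (mul_le_mul_of_nonneg_left hz2 (mul_nonneg hT0 hΔ))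
          (mul_le_mul_of_nonneg_left hz3 (by positivity))
    _ = T ^ 4 * Real.sqrt q + T ^ 3 * (((K2 : ℝ) - K1) / q) := by ring

theorem tAkb (_h1 : TN.IsqStmt) (_h2 : SL.EcmStmt) (_h3 : MI.T1GsjStmt) : AkbStmt := by
  intro X T q P1 Q1 P2 Q2 b hTau hq hsq hX hb hP
  have hqR : (0 : ℝ) < q := by exact_mod_cast hq
  have hT1 : 1 ≤ T := hTau.1
  have hs : 0 < Real.sqrt (q : ℝ) := Real.sqrt_pos.2 hqR
  have hR : 0 ≤ T ^ 4 * (Real.sqrt q + (Q1 : ℝ) / Real.sqrt q) := by positivity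
  rcases le_total Q1 P1 with hP1 | hP1
  · rw [Ioc_eq_empty (by omega), filter_empty, sum_empty, abs_zero]
    exact hR
  have h := Akb_box X T q P1 Q1 P2 Q2 b hTau hsq hX hb hP1 hP
  have e : ∑ k ∈ Ioc P1 Q1, ∑ l ∈ Ioc P2 Q2, (dl b q (k * l) - (if k.Coprime q then 1 / (q : ℂ) else 0)) =
      (((∑ c ∈ (Ioc P1 Q1).filter (fun c => c.Coprime q),
        ((((Ioc P2 Q2).filter (fun n : ℕ => (q : ℤ) ∣ (c : ℤ) * n - b)).card : ℝ) - ((Q2 : ℝ) - P2) / q) : ℝ)) : ℂ) := by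
    rw [sum_filter]
    push_cast
    refine sum_congr rfl fun k _ => ?_
    rw [sum_sub_distrib]
    have e1 : ∑ l ∈ Ioc P2 Q2, dl b q (k * l) =
        (((Ioc P2 Q2).filter (fun n : ℕ => (q : ℤ) ∣ (k : ℤ) * n - b)).card : ℂ) := by
      rw [card_filter]
      push_cast
      refine sum_congr rfl fun l _ => ?_
      unfold dl
      push_cast
      rfl
    by_cases hk : k.Coprime q
    · rw [if_pos hk, e1]
      simp only [if_pos hk]
      rw [sum_const, Nat.card_Ioc, nsmul_eq_mul, Nat.cast_sub hP]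
      push_cast
      ring
    · rw [if_neg hk]
      simp only [if_neg hk, sum_const_zero, sub_zero]
      refine sum_eq_zero fun l _ => ?_
      unfold dl
      rw [if_neg]
      intro h1
      apply hk
      have h2 : IsCoprime b (q : ℤ) := Int.isCoprime_iff_gcd_eq_one.2 hb
      obtain ⟨z, hz⟩ := h1
      have h3 : ((k * l : ℕ) : ℤ) = b + q * z := by linarith
      have h4 : IsCoprime ((k * l : ℕ) : ℤ) (q : ℤ) := by
        rw [h3]
        exact (IsCoprime.add_mul_left_left_iff).2 h2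
      exact Nat.Coprime.coprime_mul_right (Nat.isCoprime_iff_coprime.1 h4)
  rw [e, Complex.norm_real, Real.norm_eq_abs] at h
  refine h.trans ?_
  have h1 : ((Q1 : ℝ) - P1) / q ≤ (Q1 : ℝ) / Real.sqrt q := by
    have h2 : Real.sqrt (q : ℝ) ≤ q := by
      have h3 : (1 : ℝ) ≤ q := by exact_mod_cast hq
      have h4 := Real.mul_self_sqrt hqR.le
      have h5 : 1 ≤ Real.sqrt (q : ℝ) := by
        rw [Real.one_le_sqrt]
        exact h3
      nlinarith
    calc ((Q1 : ℝ) - P1) / q ≤ (Q1 : ℝ) / q := div_le_div_of_nonneg_right (by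
          have : (0 : ℝ) ≤ P1 := Nat.cast_nonneg _
          linarith) hqR.le
      _ ≤ (Q1 : ℝ) / Real.sqrt q := div_le_div_of_nonneg_left (Nat.cast_nonneg _) hs h2
  have h2 : T ^ 3 ≤ T ^ 4 := pow_le_pow_right₀ hT1 (by norm_num)
  have h3 : 0 ≤ (Q1 : ℝ) / Real.sqrt q := by positivity
  calc T ^ 4 * Real.sqrt q + T ^ 3 * (((Q1 : ℝ) - P1) / q)
      ≤ T ^ 4 * Real.sqrt q + T ^ 4 * ((Q1 : ℝ) / Real.sqrt q) := by
        have h4 : T ^ 3 * (((Q1 : ℝ) - P1) / q) ≤ T ^ 3 * ((Q1 : ℝ) / Real.sqrt q) :=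
          mul_le_mul_of_nonneg_left h1 (by positivity)
        have h5 := mul_le_mul_of_nonneg_right h2 h3
        linarith
    _ = T ^ 4 * (Real.sqrt q + (Q1 : ℝ) / Real.sqrt q) := by ring

end Pool.Agent.Lib.NLA
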