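import Pool.Agent.Lib.NLA.Spec

/-! MP_00e23e_nt, Lib/NLA, module Aon: the three sums with at most one smooth variable, for one modulus. -/

set_option autoImplicit false

namespace Pool.Agent.Lib.NLA

open Finset Pool.Agent.Lib.EH3 Pool.Agent.Lib.TB Pool.Agent.Results.MP_00e23e_nt Pool.Agent.Lib.MI
open Pool.Agent.Lib.MX (Bd Mz Bd_nonneg Bd_mono rp_le rn_le log_le_T Tau_x)

private lemma Aon_dl (a : ℤ) (q n : ℕ) : ‖dl a q n‖ ≤ 1 := by
  rw [dl_nonneg_norm]
  split_ifs <;> norm_num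

private lemma Aon_Ek (a : ℤ) (t q n : ℕ) : ‖Ek a t q n‖ ≤ 2 := by
  unfold Ek
  have h1 : ‖(if n.Coprime (q / t) then (1 / ((q / t).totient : ℂ)) * dl a t n else 0 : ℂ)‖ ≤ 1 := by
    split_ifs with h
    · rw [norm_mul, norm_div, norm_one, Complex.norm_natCast]
      have h2 : (1 : ℝ) / ((q / t).totient : ℝ) ≤ 1 := by
        rcases Nat.eq_zero_or_pos (q / t).totient with h0 | h0
        · rw [h0]; norm_num
        · have : (1 : ℝ) ≤ ((q / t).totient : ℝ) := by exact_mod_cast h0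
          rw [div_le_one (by linarith)]
          exact this
      calc (1 : ℝ) / ((q / t).totient : ℝ) * ‖dl a t n‖ ≤ 1 * 1 :=
            mul_le_mul h2 (Aon_dl a t n) (norm_nonneg _) zero_le_one
        _ = 1 := one_mul 1
    · simp
  calc ‖dl a q n - (if n.Coprime (q / t) then (1 / ((q / t).totient : ℂ)) * dl a t n else 0 : ℂ)‖
      ≤ ‖dl a q n‖ + ‖(if n.Coprime (q / t) then (1 / ((q / t).totient : ℂ)) * dl a t n else 0 : ℂ)‖ :=
        norm_sub_le _ _
    _ ≤ 1 + 1 := add_le_add (Aon_dl a q n) h1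
    _ = 2 := by norm_num

/-- a sum with at most U nonzero terms -/
private lemma Aon_cnt (Y U : ℕ) (B : ℝ) (hB : 0 ≤ B) (G : ℕ → ℂ) (h0 : ∀ m ∈ Icc 1 Y, U < m → G m = 0)
    (h1 : ∀ m ∈ Icc 1 Y, m ≤ U → ‖G m‖ ≤ B) : ‖∑ m ∈ Icc 1 Y, G m‖ ≤ U * B := by
  have e1 : ∑ m ∈ Icc 1 Y, G m = ∑ m ∈ (Icc 1 Y).filter (fun m => m ≤ U), G m := by
    rw [sum_filter]
    refine sum_congr rfl fun m hm => ?_
    split_ifs with h
    · rfl
    · exact h0 m hm (not_le.1 h)
  have hc : (((Icc 1 Y).filter (fun m => m ≤ U)).card : ℝ) ≤ U := by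
    have h2 : (Icc 1 Y).filter (fun m => m ≤ U) ⊆ Icc 1 U := by
      intro n hn
      rw [mem_filter, mem_Icc] at hn
      exact mem_Icc.2 ⟨hn.1.1, hn.2⟩
    have h := card_le_card h2
    rw [Nat.card_Icc] at h
    exact_mod_cast (by omega : ((Icc 1 Y).filter (fun m => m ≤ U)).card ≤ U)
  rw [e1]
  calc ‖∑ m ∈ (Icc 1 Y).filter (fun m => m ≤ U), G m‖
      ≤ ∑ m ∈ (Icc 1 Y).filter (fun m => m ≤ U), ‖G m‖ := norm_sum_le _ _
    _ ≤ ∑ m ∈ (Icc 1 Y).filter (fun m => m ≤ U), B := by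
        refine sum_le_sum fun m hm => ?_
        rw [mem_filter] at hm
        exact h1 m hm.1 hm.2
    _ = (((Icc 1 Y).filter (fun m => m ≤ U)).card : ℝ) * B := by rw [sum_const, nsmul_eq_mul]
    _ ≤ U * B := mul_le_mul_of_nonneg_right hc hB

private lemma Aon_split (w N : ℕ) (g : ℕ → ℂ) : ∑ n ∈ Icc 1 N, (if w < n then g n else 0) =
    ∑ n ∈ Icc 1 N, g n - ∑ n ∈ Icc 1 (min w N), g n := by
  rw [← sum_filter, eq_sub_iff_add_eq]
  have h1 : Icc 1 (min w N) = (Icc 1 N).filter (fun n => ¬ w < n) := by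
    ext n
    rw [mem_filter, mem_Icc, mem_Icc, le_min_iff]
    constructor
    · rintro ⟨a, b, c⟩
      exact ⟨⟨a, c⟩, not_lt.2 b⟩
    · rintro ⟨⟨a, c⟩, b⟩
      exact ⟨a, not_lt.1 b, c⟩
  rw [h1, sum_filter_add_sum_filter_not]

theorem tAon (h1 : MI.AtyStmt) (h2 : AcvStmt) : AonStmt := by
  intro X T u w Y q t a hT hu hY hqX hq htq ha
  obtain ⟨_, hbd, _, hs2, hs3, _⟩ := h2 X T u w hT hu
  obtain ⟨hT1, hT2, hT3⟩ := hT
  have hT0 : (0 : ℝ) < T := by linarith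
  have hq1 : 1 ≤ q := Nat.pos_of_ne_zero hq.ne_zero
  have hτq : (q.divisors.card : ℝ) ≤ T := hT3 q hq1 hqX
  have hlog : ∀ n : ℕ, n ≤ Y → Real.log n ≤ T := by
    intro n hn
    rcases Nat.eq_zero_or_pos n with h0 | h0
    · rw [h0]; simp; linarith
    · have hnX : (n : ℝ) ≤ X := le_trans (by exact_mod_cast hn) hY
      have : Real.log n ≤ Real.log X := Real.log_le_log (by exact_mod_cast h0) hnX
      linarith
  have hX : ∀ n : ℕ, n ≤ Y → (n : ℝ) ≤ X := fun n hn => le_trans (by exact_mod_cast hn) hY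
  -- the inner sums
  have i1 : ∀ m : ℕ, 1 ≤ m → ‖∑ n ∈ Icc 1 (Y / m), ((lB w n : ℝ) : ℂ) * Ek a t q (m * n)‖ ≤ 12 * T ^ 2 := by
    intro m hm
    have e1 : ∑ n ∈ Icc 1 (Y / m), ((lB w n : ℝ) : ℂ) * Ek a t q (m * n) =
        ∑ n ∈ Icc 1 (Y / m), (if w < n then ((Real.log n : ℝ) : ℂ) * Ek a t q (m * n) else 0) := by
      refine sum_congr rfl fun n _ => ?_
      unfold lB
      simp only [ArithmeticFunction.coe_mk]
      split_ifs with h
      · rfl
      · simp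
    rw [e1, Aon_split]
    have k1 := (h1 q t m (Y / m) a hq htq hm ha).2
    have k2 := (h1 q t m (min w (Y / m)) a hq htq hm ha).2
    have l1 : Real.log ((Y / m : ℕ) : ℝ) ≤ T := hlog _ (Nat.div_le_self Y m)
    have l2 : Real.log ((min w (Y / m) : ℕ) : ℝ) ≤ T :=
      hlog _ ((min_le_right _ _).trans (Nat.div_le_self Y m))
    have g1 : 0 ≤ Real.log ((Y / m : ℕ) : ℝ) := Real.log_natCast_nonneg _
    have g2 : 0 ≤ Real.log ((min w (Y / m) : ℕ) : ℝ) := Real.log_natCast_nonneg _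
    have b1 : 6 * (q.divisors.card : ℝ) * Real.log ((Y / m : ℕ) : ℝ) ≤ 6 * T * T := by gcongr
    have b2 : 6 * (q.divisors.card : ℝ) * Real.log ((min w (Y / m) : ℕ) : ℝ) ≤ 6 * T * T := by gcongr
    refine (norm_sub_le _ _).trans ?_
    nlinarith
  have i2 : ∀ m : ℕ, 1 ≤ m → ‖∑ n ∈ Icc 1 (Y / m), ((zB w n : ℝ) : ℂ) * Ek a t q (m * n)‖ ≤ 6 * T := by
    intro m hm
    have e1 : ∑ n ∈ Icc 1 (Y / m), ((zB w n : ℝ) : ℂ) * Ek a t q (m * n) =
        ∑ n ∈ Icc 1 (Y / m), (if w < n then Ek a t q (m * n) else 0) := by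
      refine sum_congr rfl fun n _ => ?_
      unfold zB
      simp only [ArithmeticFunction.coe_mk]
      split_ifs with h
      · simp
      · simp
    rw [e1, Aon_split]
    have k1 := (h1 q t m (Y / m) a hq htq hm ha).1
    have k2 := (h1 q t m (min w (Y / m)) a hq htq hm ha).1
    refine (norm_sub_le _ _).trans ?_
    linarith
  refine ⟨?_, ?_, ?_⟩
  · unfold CS
    have hB : (0 : ℝ) ≤ u * (T * 2) := by positivity
    have key := Aon_cnt Y u (u * (T * 2)) hB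
      (fun m => ∑ n ∈ Icc 1 (Y / m), ((am u m : ℝ) : ℂ) * ((lt 0 u n : ℝ) : ℂ) * Ek a t q (m * n)) ?_ ?_
    · refine key.trans (le_of_eq ?_)
      ring
    · intro m _ hm
      refine sum_eq_zero fun n _ => ?_
      have : am u m = 0 := by
        unfold am
        simp only [ArithmeticFunction.coe_mk]
        rw [if_neg (not_le.2 hm)]
      rw [this]
      simp
    · intro m hm _
      rw [mem_Icc] at hm
      refine Aon_cnt (Y / m) u (T * 2) (by positivity) _ ?_ ?_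
      · intro n _ hn
        have : lt 0 u n = 0 := by
          unfold lt
          simp only [ArithmeticFunction.coe_mk]
          rw [if_neg (fun h => absurd h.2 (not_le.2 hn))]
        rw [this]
        simp
      · intro n hn _
        rw [mem_Icc] at hn
        have hnY : n ≤ Y := hn.2.trans (Nat.div_le_self Y m)
        have b1 : ‖((am u m : ℝ) : ℂ)‖ ≤ 1 := by
          rw [Complex.norm_real, Real.norm_eq_abs]
          exact (hbd m hm.1 (hX m hm.2)).2.2.2.2.2.2.1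
        have b2 : ‖((lt 0 u n : ℝ) : ℂ)‖ ≤ T := by
          rw [Complex.norm_real, Real.norm_eq_abs]
          exact (hbd n hn.1 (hX n hnY)).2.2.2.2.2.1
        rw [norm_mul, norm_mul]
        calc ‖((am u m : ℝ) : ℂ)‖ * ‖((lt 0 u n : ℝ) : ℂ)‖ * ‖Ek a t q (m * n)‖ ≤ 1 * T * 2 :=
              mul_le_mul (mul_le_mul b1 b2 (norm_nonneg _) zero_le_one) (Aon_Ek a t q _) (norm_nonneg _)
                (by linarith)
          _ = T * 2 := by ring
  · unfold CS
    have hB : (0 : ℝ) ≤ 12 * T ^ 2 := by positivity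
    have key := Aon_cnt Y u (12 * T ^ 2) hB
      (fun m => ∑ n ∈ Icc 1 (Y / m), ((am u m : ℝ) : ℂ) * ((lB w n : ℝ) : ℂ) * Ek a t q (m * n)) ?_ ?_
    · refine key.trans (le_of_eq ?_)
      ring
    · intro m _ hm
      refine sum_eq_zero fun n _ => ?_
      have : am u m = 0 := by
        unfold am
        simp only [ArithmeticFunction.coe_mk]
        rw [if_neg (not_le.2 hm)]
      rw [this]
      simp
    · intro m hm _
      rw [mem_Icc] at hm
      have e1 : ∑ n ∈ Icc 1 (Y / m), ((am u m : ℝ) : ℂ) * ((lB w n : ℝ) : ℂ) * Ek a t q (m * n) =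
          ((am u m : ℝ) : ℂ) * ∑ n ∈ Icc 1 (Y / m), ((lB w n : ℝ) : ℂ) * Ek a t q (m * n) := by
        rw [mul_sum]
        refine sum_congr rfl fun n _ => ?_
        ring
      have b1 : ‖((am u m : ℝ) : ℂ)‖ ≤ 1 := by
        rw [Complex.norm_real, Real.norm_eq_abs]
        exact (hbd m hm.1 (hX m hm.2)).2.2.2.2.2.2.1
      rw [e1, norm_mul]
      calc ‖((am u m : ℝ) : ℂ)‖ * ‖∑ n ∈ Icc 1 (Y / m), ((lB w n : ℝ) : ℂ) * Ek a t q (m * n)‖
          ≤ 1 * (12 * T ^ 2) := mul_le_mul b1 (i1 m hm.1) (norm_nonneg _) zero_le_one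
        _ = 12 * T ^ 2 := by ring
  · unfold CS
    have hB : (0 : ℝ) ≤ 6 * T ^ 4 := by positivity
    have key := Aon_cnt Y (u ^ 3) (6 * T ^ 4) hB
      (fun m => ∑ n ∈ Icc 1 (Y / m), (((am u ^ 2 * lt 0 u) m : ℝ) : ℂ) * ((zB w n : ℝ) : ℂ) * Ek a t q (m * n)) ?_ ?_
    · refine key.trans (le_of_eq ?_)
      push_cast
      ring
    · intro m _ hm
      refine sum_eq_zero fun n _ => ?_
      rw [hs3 m hm]
      simp
    · intro m hm _
      rw [mem_Icc] at hm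
      have e1 : ∑ n ∈ Icc 1 (Y / m), (((am u ^ 2 * lt 0 u) m : ℝ) : ℂ) * ((zB w n : ℝ) : ℂ) * Ek a t q (m * n) =
          (((am u ^ 2 * lt 0 u) m : ℝ) : ℂ) * ∑ n ∈ Icc 1 (Y / m), ((zB w n : ℝ) : ℂ) * Ek a t q (m * n) := by
        rw [mul_sum]
        refine sum_congr rfl fun n _ => ?_
        ring
      have b1 : ‖(((am u ^ 2 * lt 0 u) m : ℝ) : ℂ)‖ ≤ T ^ 3 := by
        rw [Complex.norm_real, Real.norm_eq_abs]
        exact (hbd m hm.1 (hX m hm.2)).2.2.2.2.2.2.2.2.1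
      rw [e1, norm_mul]
      calc ‖(((am u ^ 2 * lt 0 u) m : ℝ) : ℂ)‖ * ‖∑ n ∈ Icc 1 (Y / m), ((zB w n : ℝ) : ℂ) * Ek a t q (m * n)‖
          ≤ T ^ 3 * (6 * T) := mul_le_mul b1 (i2 m hm.1) (norm_nonneg _) (by positivity)
        _ = 6 * T ^ 4 := by ring

end Pool.Agent.Lib.NLA
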