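import Pool.Agent.Lib.NLA.Spec
import Pool.Agent.Lib.BV.Tot

/-! MP_00e23e_nt, Lib/NLA, module Aqs: the sums over q. -/

set_option autoImplicit false

namespace Pool.Agent.Lib.NLA

open Finset Pool.Agent.Lib.EH3 Pool.Agent.Lib.TB Pool.Agent.Results.MP_00e23e_nt Pool.Agent.Lib.MI
open Pool.Agent.Lib.MX (Bd Mz Bd_nonneg Bd_mono rp_le rn_le log_le_T Tau_x)

private lemma Aqs_sq (D : ℕ) : ∑ q ∈ Icc 1 D, 1 / Real.sqrt (q : ℝ) ≤ 2 * Real.sqrt D := by
  induction D with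
  | zero => simp
  | succ n ih =>
    rw [Finset.sum_Icc_succ_top (by omega)]
    have ha : 0 ≤ Real.sqrt (n : ℝ) := Real.sqrt_nonneg _
    have hb : 0 < Real.sqrt ((n + 1 : ℕ) : ℝ) := Real.sqrt_pos.2 (by positivity)
    have h1 : Real.sqrt (n : ℝ) ^ 2 = n := Real.sq_sqrt (by positivity)
    have h2 : Real.sqrt ((n + 1 : ℕ) : ℝ) ^ 2 = n + 1 := by
      rw [Real.sq_sqrt (by positivity)]
      push_cast
      ring
    set A := Real.sqrt (n : ℝ)
    set B := Real.sqrt ((n + 1 : ℕ) : ℝ)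
    have h3 : 1 / B ≤ 2 * B - 2 * A := by
      rw [div_le_iff₀ hb]
      nlinarith [sq_nonneg (B - A)]
    linarith

theorem tAqs : AqsStmt := by
  intro T D U F t hT hD hF
  obtain ⟨hT1, hT2, hT3⟩ := hT
  have hsub : F ⊆ Icc 1 D := fun q hq => mem_Icc.2 ⟨(hF q hq).1, (hF q hq).2.2.1⟩
  refine ⟨?_, ?_, ?_⟩
  · calc ∑ q ∈ F, Real.sqrt q ≤ ∑ q ∈ Icc 1 D, Real.sqrt q :=
          sum_le_sum_of_subset_of_nonneg hsub (fun _ _ _ => Real.sqrt_nonneg _)
      _ ≤ ∑ q ∈ Icc 1 D, Real.sqrt D := sum_le_sum fun q hq =>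
          Real.sqrt_le_sqrt (by exact_mod_cast (mem_Icc.1 hq).2)
      _ = D * Real.sqrt D := by
          rw [sum_const, Nat.card_Icc]
          simp
  · calc ∑ q ∈ F, 1 / Real.sqrt q ≤ ∑ q ∈ Icc 1 D, 1 / Real.sqrt q :=
          sum_le_sum_of_subset_of_nonneg hsub (fun _ _ _ => by positivity)
      _ ≤ 2 * Real.sqrt D := Aqs_sq D
  · have hinj : Set.InjOn (fun q => (t q, q / t q)) (F : Set ℕ) := by
      intro q hq q' hq' h
      have e1 : t q = t q' := congrArg Prod.fst h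
      have e2 : q / t q = q' / t q' := congrArg Prod.snd h
      have m1 := Nat.mul_div_cancel' (hF q hq).2.1
      have m2 := Nat.mul_div_cancel' (hF q' hq').2.1
      rw [← m1, ← m2, e2, e1]
    have him : F.image (fun q => (t q, q / t q)) ⊆ (Icc 1 U) ×ˢ (Icc 1 D) := by
      intro p hp
      rw [mem_image] at hp
      obtain ⟨q, hq, rfl⟩ := hp
      obtain ⟨a1, a2, a3, a4⟩ := hF q hq
      have t1 : 1 ≤ t q := Nat.pos_of_dvd_of_pos a2 a1
      rw [mem_product, mem_Icc, mem_Icc]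
      refine ⟨⟨t1, a4⟩, Nat.div_pos (Nat.le_of_dvd a1 a2) t1, (Nat.div_le_self _ _).trans a3⟩
    have htot := (BV.tTot).1 D hD
    have hlog0 : 0 ≤ Real.log (D : ℝ) := Real.log_natCast_nonneg _
    calc ∑ q ∈ F, 1 / ((q / t q).totient : ℝ)
        = ∑ p ∈ F.image (fun q => (t q, q / t q)), 1 / ((p.2).totient : ℝ) := by
          rw [sum_image hinj]
      _ ≤ ∑ p ∈ (Icc 1 U) ×ˢ (Icc 1 D), 1 / ((p.2).totient : ℝ) :=
          sum_le_sum_of_subset_of_nonneg him (fun _ _ _ => by positivity)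
      _ = ∑ _u ∈ Icc 1 U, ∑ v ∈ Icc 1 D, 1 / (v.totient : ℝ) := by
          rw [sum_product]
      _ = U * ∑ v ∈ Icc 1 D, 1 / (v.totient : ℝ) := by
          rw [sum_const, Nat.card_Icc]
          simp
      _ ≤ U * (1 + Real.log D) ^ 2 := mul_le_mul_of_nonneg_left htot (by positivity)
      _ ≤ U * T ^ 2 := by
          apply mul_le_mul_of_nonneg_left _ (by positivity)
          exact pow_le_pow_left₀ (by linarith) hT2 2

end Pool.Agent.Lib.NLA
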