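import Pool.Agent.Lib.NLA.Spec

set_option autoImplicit false

/-!
MP_00e23e_nt, project NL, chapter A', module Atb: box sums of Ek, weights 1 and log.
-/

namespace Pool.Agent.Lib.NLA

open Finset Pool.Agent.Lib.EH3 Pool.Agent.Lib.TB Pool.Agent.Results.MP_00e23e_nt Pool.Agent.Lib.MI
open Pool.Agent.Lib.MX (Bd Mz Bd_nonneg Bd_mono rp_le rn_le log_le_T Tau_x)

/-- Abel summation with the logarithm on an interval -/
private lemma Atb_abel (g : ℕ → ℂ) (B : ℝ) (P Q : ℕ) (hPQ : P ≤ Q)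
    (hB : ∀ k : ℕ, k ≤ Q → ‖∑ c ∈ Ioc P k, g c‖ ≤ B) :
    ‖∑ c ∈ Ioc P Q, ((Real.log c : ℝ) : ℂ) * g c‖ ≤ 2 * B * Real.log Q := by
  have key : ∀ n : ℕ, P ≤ n → n ≤ Q → ‖∑ c ∈ Ioc P n, ((Real.log c : ℝ) : ℂ) * g c -
      ((Real.log n : ℝ) : ℂ) * ∑ c ∈ Ioc P n, g c‖ ≤ B * Real.log n := by
    intro n hn
    induction n, hn using Nat.le_induction with
    | base =>
      intro _
      have hB0 : 0 ≤ B := (norm_nonneg _).trans (hB P hPQ)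
      have := Real.log_natCast_nonneg P
      simp only [Ioc_self, sum_empty, mul_zero, sub_zero, norm_zero]
      positivity
    | succ n hn ih =>
      intro hnQ
      have ih' := ih (by omega)
      rw [Finset.sum_Ioc_succ_top hn, Finset.sum_Ioc_succ_top hn]
      have hlog : Real.log (n : ℝ) ≤ Real.log ((n + 1 : ℕ) : ℝ) := by
        rcases Nat.eq_zero_or_pos n with h0 | h0
        · subst h0
          simp
        · have hn0 : (0 : ℝ) < n := by exact_mod_cast h0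
          exact Real.log_le_log hn0 (by push_cast; linarith)
      have e1 : ∑ c ∈ Ioc P n, ((Real.log c : ℝ) : ℂ) * g c +
          ((Real.log ((n + 1 : ℕ) : ℝ) : ℝ) : ℂ) * g (n + 1) -
          ((Real.log ((n + 1 : ℕ) : ℝ) : ℝ) : ℂ) * (∑ c ∈ Ioc P n, g c + g (n + 1)) =
          (∑ c ∈ Ioc P n, ((Real.log c : ℝ) : ℂ) * g c -
            ((Real.log (n : ℝ) : ℝ) : ℂ) * ∑ c ∈ Ioc P n, g c) -
          ((Real.log ((n + 1 : ℕ) : ℝ) - Real.log (n : ℝ) : ℝ) : ℂ) * ∑ c ∈ Ioc P n, g c := by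
        push_cast
        ring
      rw [e1]
      refine (norm_sub_le _ _).trans ?_
      have e2 : ‖((Real.log ((n + 1 : ℕ) : ℝ) - Real.log (n : ℝ) : ℝ) : ℂ) * ∑ c ∈ Ioc P n, g c‖ ≤
          (Real.log ((n + 1 : ℕ) : ℝ) - Real.log (n : ℝ)) * B := by
        rw [norm_mul, Complex.norm_real, Real.norm_eq_abs, abs_of_nonneg (by linarith)]
        exact mul_le_mul_of_nonneg_left (hB n (by omega)) (by linarith)
      linarith
  have hk := key Q hPQ le_rfl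
  have hX0 : 0 ≤ Real.log (Q : ℝ) := Real.log_natCast_nonneg Q
  have e3 : ‖((Real.log Q : ℝ) : ℂ) * ∑ c ∈ Ioc P Q, g c‖ ≤ Real.log Q * B := by
    rw [norm_mul, Complex.norm_real, Real.norm_eq_abs, abs_of_nonneg hX0]
    exact mul_le_mul_of_nonneg_left (hB Q le_rfl) hX0
  have e4 := norm_add_le (∑ c ∈ Ioc P Q, ((Real.log c : ℝ) : ℂ) * g c -
      ((Real.log Q : ℝ) : ℂ) * ∑ c ∈ Ioc P Q, g c) (((Real.log Q : ℝ) : ℂ) * ∑ c ∈ Ioc P Q, g c)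
  rw [sub_add_cancel] at e4
  linarith

/-- a common prime factor of b and q: all terms vanish -/
private lemma Atb_zero {q t b : ℕ} {a : ℤ} (hq : Squarefree q) (ht : t ∣ q) (ha : Int.gcd a q = 1)
    (hb : ¬ b.Coprime q) (c : ℕ) : Ek a t q (b * c) = 0 := by
  obtain ⟨p, hp, hpb, hpq⟩ := Nat.Prime.not_coprime_iff_dvd.1 hb
  have hpa : ∀ d : ℕ, p ∣ d → ¬ ((d : ℤ) ∣ ((b * c : ℕ) : ℤ) - a) := by
    intro d hd h
    have h1 : (p : ℤ) ∣ ((b * c : ℕ) : ℤ) - a := (Int.natCast_dvd_natCast.2 hd).trans h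
    have h2 : (p : ℤ) ∣ ((b * c : ℕ) : ℤ) := Int.natCast_dvd_natCast.2 (hpb.mul_right c)
    have h3 : (p : ℤ) ∣ a := by
      have h4 := dvd_sub h2 h1
      rwa [sub_sub_cancel] at h4
    have h5 : p ∣ Int.gcd a q := Int.natCast_dvd_natCast.1
      (Int.dvd_coe_gcd h3 (Int.natCast_dvd_natCast.2 hpq))
    rw [ha] at h5
    exact hp.one_lt.ne' (Nat.dvd_one.1 h5)
  unfold Ek dl
  rw [if_neg (hpa q hpq)]
  have hq0 : q ≠ 0 := hq.ne_zero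
  have htu : t * (q / t) = q := Nat.mul_div_cancel' ht
  split_ifs with h1 h2
  · exfalso
    have h3 : p ∣ t := by
      have h4 : p ∣ t * (q / t) := by rw [htu]; exact hpq
      rcases hp.dvd_mul.1 h4 with h5 | h5
      · exact h5
      · exfalso
        have h6 : p ∣ Nat.gcd (b * c) (q / t) := Nat.dvd_gcd (hpb.mul_right c) h5
        rw [h1] at h6
        exact hp.one_lt.ne' (Nat.dvd_one.1 h6)
    exact hpa t h3 h2
  · simp
  · simp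

/-- the number of solutions on an interval -/
private lemma Atb_act (h1 : ActStmt) (t u P Q : ℕ) (a : ℤ) (ht : 1 ≤ t) (hu : 1 ≤ u) (hc : t.Coprime u)
    (hPQ : P ≤ Q) :
    |((((Ioc P Q).filter (fun c : ℕ => c.Coprime u ∧ (t : ℤ) ∣ (c : ℤ) - a)).card : ℝ)) -
      ((Q : ℝ) - P) * (u.totient : ℝ) / ((t : ℝ) * u)| ≤ 2 * (u.divisors.card : ℝ) := by
  have f1 := h1 t u Q a ht hu hc
  have f2 := h1 t u P a ht hu hc
  have e1 : (Icc 1 Q).filter (fun c : ℕ => c.Coprime u ∧ (t : ℤ) ∣ (c : ℤ) - a) =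
      (Icc 1 P).filter (fun c : ℕ => c.Coprime u ∧ (t : ℤ) ∣ (c : ℤ) - a) ∪
      (Ioc P Q).filter (fun c : ℕ => c.Coprime u ∧ (t : ℤ) ∣ (c : ℤ) - a) := by
    rw [← Finset.filter_union]
    congr 1
    ext c
    simp only [mem_union, mem_Icc, mem_Ioc]
    omega
  have e2 : Disjoint ((Icc 1 P).filter (fun c : ℕ => c.Coprime u ∧ (t : ℤ) ∣ (c : ℤ) - a))
      ((Ioc P Q).filter (fun c : ℕ => c.Coprime u ∧ (t : ℤ) ∣ (c : ℤ) - a)) := by
    apply Finset.disjoint_filter_filter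
    rw [Finset.disjoint_left]
    intro c hc1 hc2
    simp only [mem_Icc, mem_Ioc] at hc1 hc2
    omega
  rw [e1, Finset.card_union_of_disjoint e2, Nat.cast_add] at f1
  obtain ⟨A, hA⟩ : ∃ A : ℝ, A = (((Icc 1 P).filter
    (fun c : ℕ => c.Coprime u ∧ (t : ℤ) ∣ (c : ℤ) - a)).card : ℝ) := ⟨_, rfl⟩
  obtain ⟨A', hA'⟩ : ∃ A' : ℝ, A' = (((Ioc P Q).filter
    (fun c : ℕ => c.Coprime u ∧ (t : ℤ) ∣ (c : ℤ) - a)).card : ℝ) := ⟨_, rfl⟩
  rw [← hA, ← hA'] at f1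
  rw [← hA] at f2
  rw [← hA']
  have e3 : A' - ((Q : ℝ) - P) * (u.totient : ℝ) / ((t : ℝ) * u) =
      (A + A' - (Q : ℝ) * (u.totient : ℝ) / ((t : ℝ) * u)) -
      (A - (P : ℝ) * (u.totient : ℝ) / ((t : ℝ) * u)) := by
    ring
  rw [e3]
  refine (abs_sub _ _).trans ?_
  linarith

private lemma Atb_card (s : Finset ℕ) (p : ℕ → Prop) [DecidablePred p] :
    ∑ c ∈ s, (if p c then (1 : ℂ) else 0) = ((s.filter p).card : ℂ) := by
  rw [Finset.sum_boole]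

/-- the inner sum for d, c1 coprime to q -/
private lemma Atb_inner (h2 : ActStmt) {q t d c1 P2 Q2 : ℕ} {a : ℤ} (hq : Squarefree q) (ht : t ∣ q)
    (hd : d.Coprime q) (hc : c1.Coprime q) (hPQ : P2 ≤ Q2) :
    ‖(∑ c2 ∈ Ioc P2 Q2, Ek a t q (d * (c1 * c2))) -
      (((((Ioc P2 Q2).filter (fun n : ℕ => (q : ℤ) ∣ (c1 : ℤ) * n - a * (iv d q : ℤ))).card : ℝ) -
        ((Q2 : ℝ) - P2) / q : ℝ) : ℂ)‖ ≤ 2 * (q.divisors.card : ℝ) / ((q / t).totient : ℝ) := by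
  have hq0 : q ≠ 0 := hq.ne_zero
  have hq1 : 1 ≤ q := Nat.pos_of_ne_zero hq0
  obtain ⟨u, hu⟩ : ∃ u, u = q / t := ⟨_, rfl⟩
  have htu : t * u = q := by rw [hu]; exact Nat.mul_div_cancel' ht
  have ht1 : 1 ≤ t := Nat.pos_of_dvd_of_pos ht hq1
  have hu1 : 1 ≤ u := by
    rcases Nat.eq_zero_or_pos u with h | h
    · rw [h, mul_zero] at htu
      exact absurd htu.symm hq0
    · exact h
  have huq : u ∣ q := ⟨t, by rw [← htu]; ring⟩
  have hcop : t.Coprime u := Nat.coprime_of_squarefree_mul (by rw [htu]; exact hq)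
  obtain ⟨b, hb⟩ : ∃ b : ℤ, b = a * (iv d q : ℤ) := ⟨_, rfl⟩
  obtain ⟨b', hb'⟩ : ∃ b' : ℤ, b' = b * (iv c1 q : ℤ) := ⟨_, rfl⟩
  have hbq : (q : ℤ) ∣ (d : ℤ) * b - a := by
    have h3 := iv_dvd hd hq1
    have h4 : (d : ℤ) * b - a = a * ((iv d q : ℤ) * d - 1) := by rw [hb]; ring
    rw [h4]
    exact dvd_mul_of_dvd_right h3 a
  have hbq' : (q : ℤ) ∣ (c1 : ℤ) * b' - b := by
    have h3 := iv_dvd hc hq1
    have h4 : (c1 : ℤ) * b' - b = b * ((iv c1 q : ℤ) * c1 - 1) := by rw [hb']; ring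
    rw [h4]
    exact dvd_mul_of_dvd_right h3 b
  have hiff : ∀ (e c : ℕ), e ∣ q → ((e : ℤ) ∣ ((d * (c1 * c) : ℕ) : ℤ) - a ↔
      (e : ℤ) ∣ (c1 : ℤ) * c - b) := by
    intro e c he
    have h3 : (e : ℤ) ∣ (d : ℤ) * b - a := (Int.natCast_dvd_natCast.2 he).trans hbq
    have h4 : ((d * (c1 * c) : ℕ) : ℤ) - a = (d : ℤ) * ((c1 : ℤ) * c - b) + ((d : ℤ) * b - a) := by
      push_cast
      ring
    have h5 : IsCoprime (e : ℤ) (d : ℤ) :=
      Nat.isCoprime_iff_coprime.2 (hd.symm.coprime_dvd_left he)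
    rw [h4, dvd_add_left h3]
    exact ⟨fun h => h5.dvd_of_dvd_mul_left h, fun h => dvd_mul_of_dvd_right h _⟩
  have hiff' : ∀ (e c : ℕ), e ∣ q → ((e : ℤ) ∣ (c1 : ℤ) * c - b ↔ (e : ℤ) ∣ (c : ℤ) - b') := by
    intro e c he
    have h3 : (e : ℤ) ∣ (c1 : ℤ) * b' - b := (Int.natCast_dvd_natCast.2 he).trans hbq'
    have h4 : (c1 : ℤ) * c - b = (c1 : ℤ) * ((c : ℤ) - b') + ((c1 : ℤ) * b' - b) := by
      ring
    have h5 : IsCoprime (e : ℤ) (c1 : ℤ) :=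
      Nat.isCoprime_iff_coprime.2 (hc.symm.coprime_dvd_left he)
    rw [h4, dvd_add_left h3]
    exact ⟨fun h => h5.dvd_of_dvd_mul_left h, fun h => dvd_mul_of_dvd_right h _⟩
  have hdu : d.Coprime u := hd.coprime_dvd_right huq
  have hcu : c1.Coprime u := hc.coprime_dvd_right huq
  have hcopu : ∀ c : ℕ, (d * (c1 * c)).Coprime u ↔ c.Coprime u := by
    intro c
    rw [Nat.coprime_mul_iff_left, Nat.coprime_mul_iff_left]
    exact ⟨fun h => h.2.2, fun h => ⟨hdu, hcu, h⟩⟩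
  have hEk : ∀ c : ℕ, Ek a t q (d * (c1 * c)) =
      (if (q : ℤ) ∣ (c1 : ℤ) * c - b then (1 : ℂ) else 0) -
      (1 / (u.totient : ℂ)) * (if c.Coprime u ∧ (t : ℤ) ∣ (c : ℤ) - b' then (1 : ℂ) else 0) := by
    intro c
    unfold Ek dl
    rw [← hu]
    simp only [hiff q c dvd_rfl, hiff t c ht, hiff' t c ht, hcopu c]
    by_cases h3 : c.Coprime u
    · by_cases h4 : (t : ℤ) ∣ (c : ℤ) - b'
      · simp [h4]
      · simp [h4]
    · simp [h3]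
  rw [← hb, ← hu]
  rw [Finset.sum_congr rfl fun c _ => hEk c, Finset.sum_sub_distrib, ← Finset.mul_sum, Atb_card,
    Atb_card]
  obtain ⟨N1, hN1⟩ : ∃ N1 : ℕ, N1 =
    ((Ioc P2 Q2).filter (fun c : ℕ => (q : ℤ) ∣ (c1 : ℤ) * c - b)).card := ⟨_, rfl⟩
  obtain ⟨N2, hN2⟩ : ∃ N2 : ℕ, N2 =
      ((Ioc P2 Q2).filter (fun c : ℕ => c.Coprime u ∧ (t : ℤ) ∣ (c : ℤ) - b')).card := ⟨_, rfl⟩
  rw [← hN1, ← hN2]
  have f2 := Atb_act h2 t u P2 Q2 b' ht1 hu1 hcop hPQ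
  rw [← hN2] at f2
  have hφ : (1 : ℝ) ≤ (u.totient : ℝ) := by
    exact_mod_cast Nat.totient_pos.2 hu1
  have hφ0 : (0 : ℝ) < (u.totient : ℝ) := by linarith
  have ht0 : (0 : ℝ) < t := by exact_mod_cast ht1
  have hu0 : (0 : ℝ) < u := by exact_mod_cast hu1
  have hqr : (q : ℝ) = (t : ℝ) * u := by rw [← htu]; push_cast; ring
  have e1 : ((N1 : ℂ) - 1 / (u.totient : ℂ) * (N2 : ℂ)) -
      (((N1 : ℝ) - ((Q2 : ℝ) - P2) / q : ℝ) : ℂ) =
      ((-(1 / (u.totient : ℝ) *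
        ((N2 : ℝ) - ((Q2 : ℝ) - P2) * (u.totient : ℝ) / ((t : ℝ) * u))) : ℝ) : ℂ) := by
    have e2 : 1 / (u.totient : ℝ) * ((N2 : ℝ) - ((Q2 : ℝ) - P2) * (u.totient : ℝ) / ((t : ℝ) * u)) =
        1 / (u.totient : ℝ) * (N2 : ℝ) - ((Q2 : ℝ) - P2) / q := by
      rw [hqr]
      field_simp
    rw [e2]
    push_cast
    ring
  rw [e1, Complex.norm_real, Real.norm_eq_abs, abs_neg, abs_mul, abs_of_nonneg (by positivity)]
  have e5 : (u.divisors.card : ℝ) ≤ (q.divisors.card : ℝ) := by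
    exact_mod_cast Finset.card_le_card (Nat.divisors_subset_of_dvd hq0 huq)
  rw [one_div, inv_mul_eq_div]
  gcongr
  linarith

/-- the first bound -/
private lemma Atb_one (h1 : AkbStmt) (h2 : ActStmt) (X T : ℝ) (q t d P1 Q1 P2 Q2 : ℕ) (a : ℤ)
    (hT : Tau X T) (hq : Squarefree q) (hqX : (q : ℝ) ≤ X) (ht : t ∣ q) (ha : Int.gcd a q = 1)
    (hPQ : P2 ≤ Q2) :
    ‖∑ c1 ∈ Ioc P1 Q1, ∑ c2 ∈ Ioc P2 Q2, Ek a t q (d * (c1 * c2))‖ ≤
    2 * T ^ 4 * (Real.sqrt q + (Q1 : ℝ) / Real.sqrt q + (Q1 : ℝ) / ((q / t).totient : ℝ)) := by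
  have hq0 : q ≠ 0 := hq.ne_zero
  have hq1 : 1 ≤ q := Nat.pos_of_ne_zero hq0
  have hT1 : 1 ≤ T := hT.1
  have hT0 : (0 : ℝ) ≤ T := by linarith
  by_cases hd : d.Coprime q
  swap
  · rw [Finset.sum_eq_zero, norm_zero]
    · positivity
    · intro c1 _
      exact Finset.sum_eq_zero fun c2 _ => Atb_zero hq ht ha hd (c1 * c2)
  obtain ⟨b, hb⟩ : ∃ b : ℤ, b = a * (iv d q : ℤ) := ⟨_, rfl⟩
  have hbq : Int.gcd b q = 1 := by
    have h3 := iv_dvd hd hq1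
    have h4 : IsCoprime (q : ℤ) ((iv d q : ℤ)) := by
      obtain ⟨k, hk⟩ := h3
      exact ⟨-k, d, by linear_combination hk⟩
    have h5 : IsCoprime a (q : ℤ) := Int.isCoprime_iff_gcd_eq_one.2 ha
    have h6 : IsCoprime (a * (iv d q : ℤ)) (q : ℤ) := h5.mul_left h4.symm
    rw [hb]
    exact Int.isCoprime_iff_gcd_eq_one.1 h6
  have e1 : ∑ c1 ∈ Ioc P1 Q1, ∑ c2 ∈ Ioc P2 Q2, Ek a t q (d * (c1 * c2)) =
      ∑ c1 ∈ (Ioc P1 Q1).filter (fun c => c.Coprime q),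
        ∑ c2 ∈ Ioc P2 Q2, Ek a t q (d * (c1 * c2)) := by
    rw [Finset.sum_filter]
    refine Finset.sum_congr rfl fun c1 _ => ?_
    split_ifs with h3
    · rfl
    · refine Finset.sum_eq_zero fun c2 _ => ?_
      have h4 : d * (c1 * c2) = c1 * (d * c2) := by ring
      rw [h4]
      exact Atb_zero hq ht ha h3 (d * c2)
  rw [e1]
  have hk := h1 X T q P1 Q1 P2 Q2 b hT hq1 hq hqX hbq hPQ
  obtain ⟨S, hS⟩ : ∃ S, S = (Ioc P1 Q1).filter (fun c => c.Coprime q) := ⟨_, rfl⟩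
  rw [← hS] at hk
  rw [← hS]
  obtain ⟨G, hG⟩ : ∃ G : ℕ → ℝ, G = fun c : ℕ => ((((Ioc P2 Q2).filter
    (fun n : ℕ => (q : ℤ) ∣ (c : ℤ) * n - b)).card : ℝ) - ((Q2 : ℝ) - P2) / q) := ⟨_, rfl⟩
  have e2 : ∑ c1 ∈ S, ∑ c2 ∈ Ioc P2 Q2, Ek a t q (d * (c1 * c2)) =
      ∑ c1 ∈ S, ((∑ c2 ∈ Ioc P2 Q2, Ek a t q (d * (c1 * c2))) - ((G c1 : ℝ) : ℂ)) +
      ((∑ c1 ∈ S, G c1 : ℝ) : ℂ) := by
    rw [Finset.sum_sub_distrib]
    push_cast
    ring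
  rw [e2]
  refine (norm_add_le _ _).trans ?_
  have e3 : ‖((∑ c1 ∈ S, G c1 : ℝ) : ℂ)‖ ≤ T ^ 4 * (Real.sqrt q + (Q1 : ℝ) / Real.sqrt q) := by
    rw [Complex.norm_real, Real.norm_eq_abs, hG]
    exact hk
  have e4 : ‖∑ c1 ∈ S, ((∑ c2 ∈ Ioc P2 Q2, Ek a t q (d * (c1 * c2))) - ((G c1 : ℝ) : ℂ))‖ ≤
      (Q1 : ℝ) * (2 * T / ((q / t).totient : ℝ)) := by
    have e5 : ∀ c1 ∈ S, ‖(∑ c2 ∈ Ioc P2 Q2, Ek a t q (d * (c1 * c2))) - ((G c1 : ℝ) : ℂ)‖ ≤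
        2 * T / ((q / t).totient : ℝ) := by
      intro c1 hc1
      rw [hS, Finset.mem_filter] at hc1
      have h3 := Atb_inner h2 (a := a) hq ht hd hc1.2 hPQ
      rw [hG]
      rw [← hb] at h3
      refine h3.trans ?_
      have h4 := hT.2.2 q hq1 hqX
      gcongr
    refine (norm_sum_le_of_le _ e5).trans ?_
    rw [Finset.sum_const, nsmul_eq_mul]
    have h6 : (S.card : ℝ) ≤ Q1 := by
      have h7 : S.card ≤ Q1 := by
        rw [hS]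
        refine (Finset.card_filter_le _ _).trans ?_
        rw [Nat.card_Ioc]
        omega
      exact_mod_cast h7
    gcongr
  have hTT : T ≤ T ^ 4 := by
    calc T = T ^ 1 := (pow_one T).symm
      _ ≤ T ^ 4 := pow_le_pow_right₀ hT1 (by norm_num)
  have e6 : (Q1 : ℝ) * (2 * T / ((q / t).totient : ℝ)) ≤
      2 * T ^ 4 * ((Q1 : ℝ) / ((q / t).totient : ℝ)) := by
    have : (Q1 : ℝ) * (2 * T / ((q / t).totient : ℝ)) =
        2 * T * ((Q1 : ℝ) / ((q / t).totient : ℝ)) := by ring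
    rw [this]
    gcongr
  have e7 : 0 ≤ T ^ 4 * (Real.sqrt q + (Q1 : ℝ) / Real.sqrt q) := by positivity
  nlinarith [e3, e4, e6, e7]

theorem tAtb (h1 : AkbStmt) (h2 : MI.ActStmt) : AtbStmt := by
  intro X T q t d P1 Q1 P2 Q2 a hT hq hqX ht ha hQX hPQ
  have hT1 : 1 ≤ T := hT.1
  have hT0 : (0 : ℝ) ≤ T := by linarith
  refine ⟨Atb_one h1 h2 X T q t d P1 Q1 P2 Q2 a hT hq hqX ht ha hPQ, ?_⟩
  rcases le_or_gt Q1 P1 with h | h
  · rw [Finset.Ioc_eq_empty (by omega), Finset.sum_empty, norm_zero]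
    positivity
  have h3 := Atb_abel (fun c1 => ∑ c2 ∈ Ioc P2 Q2, Ek a t q (d * (c1 * c2)))
    (2 * T ^ 4 * (Real.sqrt q + (Q1 : ℝ) / Real.sqrt q + (Q1 : ℝ) / ((q / t).totient : ℝ))) P1 Q1
    h.le (by
      intro k hk
      refine (Atb_one h1 h2 X T q t d P1 k P2 Q2 a hT hq hqX ht ha hPQ).trans ?_
      have hk' : (k : ℝ) ≤ Q1 := by exact_mod_cast hk
      gcongr)
  refine h3.trans ?_
  have hlog : Real.log Q1 ≤ T := by
    have h4 : (0 : ℝ) < Q1 := by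
      have : 0 < Q1 := by omega
      exact_mod_cast this
    have h5 := Real.log_le_log h4 hQX
    have h6 := hT.2.1
    linarith
  have e1 : 4 * T ^ 5 * (Real.sqrt q + (Q1 : ℝ) / Real.sqrt q + (Q1 : ℝ) / ((q / t).totient : ℝ)) =
      2 * (2 * T ^ 4 * (Real.sqrt q + (Q1 : ℝ) / Real.sqrt q +
        (Q1 : ℝ) / ((q / t).totient : ℝ))) * T := by ring
  rw [e1]
  gcongr

end Pool.Agent.Lib.NLA
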