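import Pool.Agent.Lib.MI.Aty
import Pool.Agent.Lib.MI.Act
import Pool.Agent.Lib.MI.Acl
import Pool.Agent.Lib.MI.T1Gsj
import Pool.Agent.Lib.MK.Atr
import Pool.Agent.Lib.MK.Anm
import Pool.Agent.Lib.SL.Ecm
import Pool.Agent.Lib.TN.Isq
import Pool.Agent.Lib.TN.Ksq
import Pool.Agent.Lib.TN.AllW
import Pool.Agent.Lib.NLA.Acb
import Pool.Agent.Lib.NLA.Abi
import Pool.Agent.Lib.NLA.Aid
import Pool.Agent.Lib.NLA.Acv
import Pool.Agent.Lib.NLA.Aon
import Pool.Agent.Lib.NLA.Akb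
import Pool.Agent.Lib.NLA.Atb
import Pool.Agent.Lib.NLA.Aqs
import Pool.Agent.Lib.NLA.Acg
import Pool.Agent.Lib.NLA.Atw
import Pool.Agent.Lib.NLA.Afi

/-! MP_00e23e_nt, directory Lib/NLA (project NL, no lock): chapter A' without hypotheses, from the bilinear theorem BlN to the
theorem SLA.CoreStmt for the von Mangoldt function. -/

namespace Pool.Agent.Lib.NLA

/-- the box sums of the congruence m n = b mod q -/
theorem tAkbAll : AkbStmt := tAkb (TN.tIsq (TN.tKsq TN.tWeil)) SL.tEcm MI.tT1Gsj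

/-- the box sums of Ek -/
theorem tAtbAll : AtbStmt := tAtb tAkbAll MI.tAct

/-- the sums with two smooth variables -/
theorem tAtwAll : AtwStmt := tAtw MI.tAcl (MK.tAtr MK.tAnm) (tAcg tAtbAll) tAqs

/-- Chapter A'. -/
theorem tAfiAll : AfiStmt :=
  tAfi tAid tAcv (tAon (MI.tAty MI.tAct) tAcv) (tAbi MI.tAcl (MK.tAtr MK.tAnm) tAcb) tAtwAll

end Pool.Agent.Lib.NLA
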