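import Pool.Agent.Lib.SLA.Stm
import Pool.Agent.Lib.MK.SpecA
import Pool.Agent.Lib.MI.SpecA
import Pool.Agent.Lib.MI.SpecT1
import Pool.Agent.Lib.TN.Stmts
import Pool.Agent.Lib.SL.SpecE

/-!
MP_00e23e_nt, project NL (no lock; editor helper2), chapter A' (helper90): from the bilinear theorem BlN for N in
[x^(ν-ε), x^(θ+ε)], 1/3 ≤ θ < 1/2, to the theorem SLA.CoreStmt for the von Mangoldt function. No Heath-Brown combinatorics: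
u = ⌊x^ν⌋, w = ⌊x^θ⌋; modulo the functions f * g with f supported in (u, w] the function ζ is zA + zB (zA = ζ on [1,u],
zB = ζ above w), zA has the inverse am = μ on [1,u], zB³ = 0 on [1,x], and Λ = ζ⁻¹ log. The remaining sums have one or two smooth
variables > w and a small variable ≤ u⁴; two smooth variables by incomplete Kloosterman sums (TN.IsqStmt).

RULES. Module X: file Pool/Agent/Lib/NLA/X.lean, first line `import Pool.Agent.Lib.NLA.Spec`, then `namespace Pool.Agent.Lib.NLA`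
and the two `open` lines below; private lemmas with names starting with X_, final theorem `theorem tX (h1 : AStmt) ... : XStmt`; the
statements listed under Uses are hypotheses of your theorem, in this order. The docstring contains a complete proof. MODEL file:
copy it and change it. Never use congr!. Every module below 60 s. The constants are generous.
-/

namespace Pool.Agent.Lib.NLA

open Finset Pool.Agent.Lib.EH3 Pool.Agent.Lib.TB Pool.Agent.Results.MP_00e23e_nt Pool.Agent.Lib.MI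
open Pool.Agent.Lib.MX (Bd Mz Bd_nonneg Bd_mono rp_le rn_le log_le_T Tau_x)

/-- The interface: the bilinear theorem for N in [x^(ν-ε), x^(θ+ε)]. -/
def BlN (Φ : SLA.Hyp) (α τ ν θ ε : ℝ) : Prop := ∃ (η C x0 : ℝ) (A0 : ℕ), 0 < η ∧ 0 ≤ C ∧ ∀ (x T z : ℝ) (a : ℕ → ℤ)
    (M N : ℕ) (f g : ℕ → ℂ) (F : Finset ℕ) (t : ℕ → ℕ), x0 ≤ x → Tau (x ^ (30 : ℝ)) T → 1 ≤ z →
  z ≤ x → x ^ (ν - ε) ≤ N → (N : ℝ) ≤ x ^ (θ + ε) → x ^ (1 - ε) ≤ (M : ℝ) * N → (M : ℝ) * N ≤ x →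
  (∀ m, ‖f m‖ ≤ 1) → (∀ n, ‖g n‖ ≤ 1) →
  (∀ q ∈ F, Mz α τ z x (t q) q ∧ Int.gcd (a q) q = 1) → Φ x a t F →
  ∑ q ∈ F, ‖∑ m ∈ Ioc M (2 * M), ∑ n ∈ Ioc N (2 * N), f m * g n * Ek (a q) (t q) q (m * n)‖ ≤ Bd C A0 η x T z

/-- the parameters of the chapter -/
def ParA (α τ ν θ ε : ℝ) : Prop := (0 < ε ∧ ε < 1 / 100 ∧ 0 ≤ τ ∧ 0 ≤ α ∧ α ≤ 3 / 5) ∧
  (3 * ε ≤ ν ∧ 2 * ν ≤ θ ∧ 1 / 3 ≤ θ ∧ θ + 3 * ε ≤ 1 / 2) ∧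
  4 * ν + 3 / 2 * α + 3 * ε ≤ 1 ∧ 4 * ν + α / 2 + 3 * ε ≤ θ ∧ 4 * ν + τ + 3 * ε ≤ θ

/-! ### The bilinear part -/

/-- Module Acb (theorem tAcb; one good cell by the bilinear theorem). Uses: nothing (BlN is a hypothesis inside). MODEL: Lib/SLA/Acb.lean.
Proof. As the MODEL with the exponents ν, θ in place of 1/3, 2/3 and the variables exchanged in BlN: E = e^(i/K) (cell of f): x^ν/1.3 < E ≤ x^θ, E' = e^(j/K) ≥ 4 x^(1-ε/2)/E ≥ 4 x^(1/2). N = ⌈E⌉ - 1 (for f), M = ⌈E'⌉ - 1 (for g): N ≥ x^(ν-ε), N < E ≤ x^θ ≤ x^(θ+ε), M N ≥ x^(1-ε), M N ≤ Y ≤ x;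
E, E' ≥ 10 for x large (depending on ν, ε). BlN with f := cl K j g, g := cl K i f (exchange the two sums: sum_comm, m n = n m). -/
def AcbStmt : Prop := ∀ (Φ : SLA.Hyp) (α τ ν θ ε : ℝ), 0 < ε → ε < 1 / 100 → 3 * ε ≤ ν → θ + 3 * ε ≤ 1 / 2 → BlN Φ α τ ν θ ε →
  ∃ (η C x0 : ℝ) (A0 : ℕ), 0 < η ∧ 0 ≤ C ∧ 3 ≤ x0 ∧ ∀ (x T z : ℝ) (a : ℕ → ℤ) (Y K i j : ℕ) (f g : ℕ → ℂ) (F : Finset ℕ)
    (t : ℕ → ℕ),
  x0 ≤ x → Tau (x ^ (30 : ℝ)) T → 1 ≤ z → z ≤ x → (Y : ℝ) ≤ x → 4 ≤ K → (∀ m, ‖f m‖ ≤ 1) →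
  (∀ n, ‖g n‖ ≤ 1) → (∀ m, f m ≠ 0 → x ^ ν < m ∧ (m : ℝ) ≤ x ^ θ) →
  (K : ℝ) * (Real.log 4 + (1 - ε / 2) * Real.log x) ≤ (i : ℝ) + j → (i : ℝ) + j + 2 ≤ K * Real.log Y →
  (∀ q ∈ F, Mz α τ z x (t q) q ∧ Int.gcd (a q) q = 1) → Φ x a t F →
  ∑ q ∈ F, ‖∑ m ∈ Icc 1 Y, ∑ n ∈ Icc 1 Y, cl K i f m * cl K j g n * Ek (a q) (t q) q (m * n)‖ ≤ Bd C A0 η x T z

/-- Module Abi (theorem tAbi; the bilinear part). Uses: MI.AclStmt, MK.AtrStmt, AcbStmt. MODEL: Lib/SLA/Abi.lean (ν, θ in place of 1/3, 2/3). -/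
def AbiStmt : Prop := ∀ (Φ : SLA.Hyp) (α τ ν θ ε : ℝ), α ≤ 3 / 5 → 0 < ε → ε < 1 / 100 → 3 * ε ≤ ν → θ + 3 * ε ≤ 1 / 2 →
  BlN Φ α τ ν θ ε →
  ∃ (η C x0 : ℝ) (A0 : ℕ), 0 < η ∧ 0 ≤ C ∧ 3 ≤ x0 ∧ ∀ (x T z : ℝ) (a : ℕ → ℤ) (Y : ℕ) (f g : ℕ → ℂ) (F : Finset ℕ)
    (t : ℕ → ℕ),
  x0 ≤ x → Tau (x ^ (30 : ℝ)) T → 1 ≤ z → z ≤ x → (Y : ℝ) ≤ x → (∀ m, ‖f m‖ ≤ 1) → (∀ n, ‖g n‖ ≤ 1) →
  (∀ m, f m ≠ 0 → x ^ ν < m ∧ (m : ℝ) ≤ x ^ θ) →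
  (∀ q ∈ F, Mz α τ z x (t q) q ∧ Int.gcd (a q) q = 1) → Φ x a t F →
  ∑ q ∈ F, ‖∑ m ∈ Icc 1 Y, ∑ n ∈ Icc 1 (Y / m), f m * g n * Ek (a q) (t q) q (m * n)‖ ≤ Bd C A0 η x T z

/-! ### The identity -/

/-- μ on [1, u] -/
noncomputable def am (u : ℕ) : ArithmeticFunction ℝ := ⟨fun n => if n ≤ u then ((ArithmeticFunction.moebius n : ℤ) : ℝ) else 0, by simp⟩

/-- 1 on (u, w] -/
noncomputable def zt (u w : ℕ) : ArithmeticFunction ℝ := ⟨fun n => if u < n ∧ n ≤ w then 1 else 0, by simp⟩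

/-- log on (u, w] -/
noncomputable def lt (u w : ℕ) : ArithmeticFunction ℝ := ⟨fun n => if u < n ∧ n ≤ w then Real.log n else 0, by simp⟩

/-- 1 above w -/
noncomputable def zB (w : ℕ) : ArithmeticFunction ℝ := ⟨fun n => if w < n then 1 else 0, by simp⟩

/-- log above w -/
noncomputable def lB (w : ℕ) : ArithmeticFunction ℝ := ⟨fun n => if w < n then Real.log n else 0, by simp⟩

/-- E = am * ζ_[1,u] - 1, supported in (u, u²] -/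
noncomputable def eE (u : ℕ) : ArithmeticFunction ℝ := am u * zt 0 u - 1

/-- G = am - am² zB + am³ zB² -/
noncomputable def gG (u w : ℕ) : ArithmeticFunction ℝ := am u - am u ^ 2 * zB w + am u ^ 3 * zB w ^ 2

/-- the second factor of the term with E -/
noncomputable def gE (u w : ℕ) : ArithmeticFunction ℝ := (1 - am u * zB w + am u ^ 2 * zB w ^ 2) * ArithmeticFunction.vonMangoldt

/-- the sum over the pairs m n ≤ Y -/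
noncomputable def CS (Y : ℕ) (f g : ArithmeticFunction ℝ) (F : ℕ → ℂ) : ℂ :=
  ∑ m ∈ Icc 1 Y, ∑ n ∈ Icc 1 (Y / m), ((f m : ℝ) : ℂ) * ((g n : ℝ) : ℂ) * F (m * n)

/-- Module Aid (theorem tAid; the identity). Uses: nothing.
Proof. In the ring ArithmeticFunction ℝ: ζ = zt 0 u + zt u w + zB w (pointwise, u ≤ w; ζ 0 = 0), log = lt 0 u + lt u w + lB w, am * zt 0 u = 1 + eE. gG * ζ = gG * zt u w + (am - am² zB + am³ zB²) (zt 0 u + zB) = gG * zt u w + 1 + eE (1 - am zB + am² zB²) + am³ zB³ (ring after replacing am * zt 0 u by 1 + eE).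
Multiply by Λ and use Λ * ζ = log (ArithmeticFunction.vonMangoldt_mul_zeta): Λ = gG * log - eE * gE - am³ zB³ Λ - zt u w * (gG * Λ), and gG * log = gG * lt u w + am lt 0 u - am² zB lt 0 u + am³ zB² lt 0 u + am lB - am² zB lB + am³ zB² lB. For n ≤ Y < (w+1)³: (zB³ * h) n = 0 and (zB² * lB * h) n = 0
(a nonzero term of (f * h) n, f = zB³ or zB² lB, has a divisor d = d1 d2 d3 of n with all d_i ≥ w + 1). Multiply by F n, sum over n ≤ Y; ∑_{n ≤ Y} (f * g) n F n = CS Y f g F (pairs m k = n; MODEL Lib/MI/Ava.lean). -/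
def AidStmt : Prop := ∀ (u w Y : ℕ) (F : ℕ → ℂ), 1 ≤ u → u ≤ w → Y < (w + 1) ^ 3 →
  ∑ n ∈ Icc 1 Y, ((ArithmeticFunction.vonMangoldt n : ℝ) : ℂ) * F n =
    (CS Y (lt u w) (gG u w) F - CS Y (eE u) (gE u w) F - CS Y (zt u w) (gG u w * ArithmeticFunction.vonMangoldt) F) +
    (CS Y (am u) (lt 0 u) F + CS Y (am u) (lB w) F - CS Y (am u ^ 2 * lt 0 u) (zB w) F) +
    (CS Y (zB w) (am u ^ 3 * lt 0 u * zB w) F - CS Y (lB w) (am u ^ 2 * zB w) F)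

/-- Module Acv (theorem tAcv; bounds and supports). Uses: nothing.
Proof. (1) (f * g) n is a sum over the at most T pairs of divisors (Nat.divisorsAntidiagonal has n.divisors.card elements), each term ≤ A B, the divisors are between 1 and X. (2) am ≤ 1 (ArithmeticFunction.abs_moebius_le_one), zt, zB ≤ 1, log n ≤ log X ≤ T, 0 ≤ Λ ≤ log (vonMangoldt_le_log), 1 ≤ T. With (1): am² ≤ T, am³ ≤ T², am zB ≤ T, am² zB ≤ T², zB² ≤ T, am² zB² ≤ T³, am³ zB² ≤ T⁴,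
am u ^ 2 * lt 0 u ≤ T³, am u ^ 3 * lt 0 u ≤ T⁴, eE ≤ T + 1 ≤ 2T, gG ≤ 1 + T² + T⁴ ≤ 3T⁴, gG * Λ ≤ 3T⁶, gE: (1 + T + T³) ≤ 3T³, * Λ ≤ 3 T⁵. (3) eE n = 0 for n ≤ u: for d ∣ n ≤ u both factors are ≤ u, so (am * zt 0 u) n = (μ * ζ) n = [n = 1]; for n > u², one of d, n/d is > u: 0 (and n ≠ 1).
(4) am u ^ 2 is supported on n ≤ u², am u ^ 3 on n ≤ u³, lt 0 u on n ≤ u, so am u ^ 2 * lt 0 u on n ≤ u³, am u ^ 3 * lt 0 u on n ≤ u⁴ (support of a product: n = d e ≤ U V). -/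
def AcvStmt : Prop := ∀ (X T : ℝ) (u w : ℕ), Tau X T → 1 ≤ u →
  (∀ (f g : ArithmeticFunction ℝ) (A B : ℝ), 0 ≤ A → 0 ≤ B → (∀ n : ℕ, 1 ≤ n → (n : ℝ) ≤ X → |f n| ≤ A) →
    (∀ n : ℕ, 1 ≤ n → (n : ℝ) ≤ X → |g n| ≤ B) → ∀ n : ℕ, 1 ≤ n → (n : ℝ) ≤ X → |(f * g) n| ≤ T * A * B) ∧
  (∀ n : ℕ, 1 ≤ n → (n : ℝ) ≤ X → |gG u w n| ≤ 3 * T ^ 4 ∧ |gE u w n| ≤ 3 * T ^ 5 ∧
    |(gG u w * ArithmeticFunction.vonMangoldt) n| ≤ 3 * T ^ 6 ∧ |eE u n| ≤ 2 * T ∧ |lt u w n| ≤ T ∧ |lt 0 u n| ≤ T ∧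
    |am u n| ≤ 1 ∧ |(am u ^ 2) n| ≤ T ∧ |(am u ^ 2 * lt 0 u) n| ≤ T ^ 3 ∧ |(am u ^ 3 * lt 0 u) n| ≤ T ^ 4) ∧
  (∀ n : ℕ, n ≤ u ∨ u ^ 2 < n → eE u n = 0) ∧ (∀ n : ℕ, u ^ 2 < n → (am u ^ 2) n = 0) ∧
  (∀ n : ℕ, u ^ 3 < n → (am u ^ 2 * lt 0 u) n = 0) ∧ ∀ n : ℕ, u ^ 4 < n → (am u ^ 3 * lt 0 u) n = 0

/-! ### One smooth variable -/

/-- Module Aon (theorem tAon; the three sums with at most one smooth variable, one q). Uses: MI.AtyStmt, AcvStmt.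
Proof. (1) CS (am) (lt 0 u): at most u² pairs with nonzero terms, each ≤ 1 · T · 2 (‖Ek‖ ≤ 2, see Afi_Ek in Lib/SLA/Afi.lean). (2) for d ≤ u (otherwise am u d = 0): ∑_{c ≤ Y/d} lB w c Ek (d c) = ∑_{c ≤ Y/d} log c Ek (d c) - ∑_{c ≤ min(w, Y/d)} log c Ek (d c), each ≤ 6 τ(q) log(..) ≤ 6 T² (Aty; log 0 = 0): ≤ u 12 T².
(3) for d ≤ u³: |am² lt 0 u| ≤ T³ and the sum over c in (w, Y/d] is ≤ 6 τ(q) ≤ 6T: ≤ u³ 6 T⁴. (For u > Y or u³ > Y: the sum over m ∈ Icc 1 Y with m ≤ u³ has at most u³ terms.) -/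
def AonStmt : Prop := ∀ (X T : ℝ) (u w Y q t : ℕ) (a : ℤ), Tau X T → 1 ≤ u → (Y : ℝ) ≤ X → (q : ℝ) ≤ X →
  Squarefree q → t ∣ q → Int.gcd a q = 1 →
  ‖CS Y (am u) (lt 0 u) (Ek a t q)‖ ≤ 2 * T * (u : ℝ) ^ 2 ∧ ‖CS Y (am u) (lB w) (Ek a t q)‖ ≤ 12 * T ^ 2 * u ∧
  ‖CS Y (am u ^ 2 * lt 0 u) (zB w) (Ek a t q)‖ ≤ 6 * T ^ 4 * (u : ℝ) ^ 3

/-! ### Two smooth variables -/

/-- Module Akb (theorem tAkb; the box, first part: full congruences, weight 1). Uses: TN.IsqStmt, SL.EcmStmt, MI.T1GsjStmt.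
Proof. If P1 ≥ Q1 or P2 ≥ Q2 the left side is 0. F n = ∑_{c ∈ Ioc P1 Q1, c ⊥ q} ([q ∣ c n - b] - 1/q), period q. hE F q j = ∑_c (∑_{n < q} [q ∣ c n - b] e(j n/q) - (1/q) ∑_{n<q} e(j n/q)): the first inner sum is e(j b c̄/q), c̄ = iv c q (the only n < q with c n ≡ b is ≡ b c̄), the second is 1 if q ∣ j, otherwise 0. So hE F q j = 0 if q ∣ j, and for
q ∤ j it is ∑_c e(j b c̄/q), norm ≤ τ(q) √gcd(j b, q) √q (Q1/q + 1 + log q) (IsqStmt with Ico (P1+1) (Q1+1)), gcd(j b, q) = gcd(j, q), √gcd ≤ gcd. Ecm with N = Q2 - P2: ∑_{|j| ≤ q, j ≠ 0} wE N q j ‖hE‖ ≤ T √q (Q1/q + T) ∑_{0<|j|≤q} gcd(j,q)/(2|j|) ≤ T √q (Q1/q + T) T² (T1Gsj: ∑_{1 ≤ j ≤ q} gcd(q,j)/j ≤ τ(q) (1 + log q)). -/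
def AkbStmt : Prop := ∀ (X T : ℝ) (q P1 Q1 P2 Q2 : ℕ) (b : ℤ), Tau X T → 1 ≤ q → Squarefree q → (q : ℝ) ≤ X →
  Int.gcd b q = 1 → P2 ≤ Q2 →
  |∑ c ∈ (Ioc P1 Q1).filter (fun c => c.Coprime q),
    ((((Ioc P2 Q2).filter (fun n : ℕ => (q : ℤ) ∣ (c : ℤ) * n - b)).card : ℝ) - ((Q2 : ℝ) - P2) / q)| ≤
    T ^ 4 * (Real.sqrt q + (Q1 : ℝ) / Real.sqrt q)

/-- Module Atb (theorem tAtb; the box for Ek, weights 1 and log). Uses: AkbStmt, MI.ActStmt.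
Proof. u = q/t, q = t u, t ⊥ u (q squarefree), φ(u) ≥ 1. If a prime p divides d and q all terms vanish (q ∣ d c1 c2 - a would give p ∣ a; p ∣ t: t ∣ d c1 c2 - a impossible; p ∣ u: d c1 c2 not coprime to u), and the same for c1. So let d ⊥ q, b with q ∣ d b - a (b = a (iv d q)), gcd(b, q) = 1; q ∣ d c1 c2 - a iff q ∣ c1 c2 - b, t ∣ d c1 c2 - a iff t ∣ c1 c2 - b,
(d c1 c2, u) = 1 iff (c2, u) = 1 for c1 ⊥ q. Sum over c1 ∈ Ioc P1 Q1, c1 ⊥ q: ∑_{c2 ∈ Ioc P2 Q2} Ek = N1(c1) - (1/φ(u)) N2(c1), N1 = #{q ∣ c1 c2 - b}, N2 = #{(c2,u) = 1, t ∣ c1 c2 - b} = #{.., c2 ≡ b c̄1 mod t}: ActStmt for Q2 and P2: |N2 - (Q2 - P2) φ(u)/(t u)| ≤ 2 τ(u) ≤ 2T. So the sum differs from ∑_{c1} (N1 - (Q2-P2)/q) by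
at most Q1 2T/φ(u), and Akb gives the first bound. Weight log: ∑_{c1 ∈ Ioc P1 Q1} log c1 g(c1) = log Q1 ∑_{Ioc P1 Q1} g - ∑_{k ∈ Ico (P1+1) Q1} (log(k+1) - log k) ∑_{Ioc P1 k} g, every inner sum is bounded by the first part (monotone in Q1; norms), total ≤ 2 log Q1 · bound ≤ 2 T · bound (Q1 ≤ X; Q1 = 0 trivial). -/
def AtbStmt : Prop := ∀ (X T : ℝ) (q t d P1 Q1 P2 Q2 : ℕ) (a : ℤ), Tau X T → Squarefree q → (q : ℝ) ≤ X → t ∣ q →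
  Int.gcd a q = 1 → (Q1 : ℝ) ≤ X → P2 ≤ Q2 →
  ‖∑ c1 ∈ Ioc P1 Q1, ∑ c2 ∈ Ioc P2 Q2, Ek a t q (d * (c1 * c2))‖ ≤
    2 * T ^ 4 * (Real.sqrt q + (Q1 : ℝ) / Real.sqrt q + (Q1 : ℝ) / ((q / t).totient : ℝ)) ∧
  ‖∑ c1 ∈ Ioc P1 Q1, ((Real.log c1 : ℝ) : ℂ) * ∑ c2 ∈ Ioc P2 Q2, Ek a t q (d * (c1 * c2))‖ ≤
    4 * T ^ 5 * (Real.sqrt q + (Q1 : ℝ) / Real.sqrt q + (Q1 : ℝ) / ((q / t).totient : ℝ))

/-- Module Aqs (theorem tAqs; the sums over q). Uses: nothing. (BV/Tot.lean: tTot : BV.TotStmt, ∑_{u ≤ D} 1/φ(u) ≤ (1 + log D)^2.)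
Proof. F ⊆ Icc 1 D. ∑ √q ≤ D √D; ∑_{q ≤ D} 1/√q ≤ 2 √D (1/√q ≤ 2 (√q - √(q-1))); q ↦ (t q, q/t q) is injective on F (product q), t q ≤ U, q/t q ≤ D: ∑ 1/φ(q/t q) ≤ ∑_{t ≤ U} ∑_{v ≤ D} 1/φ(v) ≤ U (1 + log D)² ≤ U T². -/
def AqsStmt : Prop := ∀ (T : ℝ) (D U : ℕ) (F : Finset ℕ) (t : ℕ → ℕ), Tau D T → 1 ≤ D →
  (∀ q ∈ F, 1 ≤ q ∧ t q ∣ q ∧ q ≤ D ∧ t q ≤ U) →
  ∑ q ∈ F, Real.sqrt q ≤ D * Real.sqrt D ∧ ∑ q ∈ F, 1 / Real.sqrt q ≤ 2 * Real.sqrt D ∧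
    ∑ q ∈ F, 1 / ((q / t q).totient : ℝ) ≤ U * T ^ 2

/-- Module Acg (theorem tAcg; one good cell with two smooth variables, one q). Uses: AtbStmt.
Proof. The cell of i is {m : i ≤ K log m < i+1} = Ioc P Q for m ≥ 1 with P = ⌈e^(i/K)⌉ - 1, Q = ⌈e^((i+1)/K)⌉ - 1 (naturals). β n = ∑_{d ∣ n, d ≤ U, n/d > w} e d/T (norm ≤ 1 for n ≤ Y ≤ X; β n := 0 for n > Y or n = 0). If no n ∈ Icc 1 Y has cl K j β n ≠ 0 the sum is 0. Otherwise such an n is > w, so for every m with cl K i α m ≠ 0: K log (m n) < i + j + 2 ≤ K log Y, m n < Y,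
m (w+1) ≤ Y: m ≤ Q1 := Y/(w+1) (natural division). So ∑_{m ∈ Icc 1 Y} runs over m in Ioc (max P w) (min Q Q1), and ∑_n cl K j β n F n = ∑_{d ≤ U} (e d/T) ∑_{c2 : w < c2, d c2 ≤ Y, i.e. c2 ≤ Y/d, j ≤ K log(d c2) < j+1} F (d c2): the c2 form an interval Ioc P2 Q2 (d c2 in the cell iff P' < d c2 ≤ Q', iff P'/d < c2 ≤ Q'/d with natural division).
So the cell sum is ∑_{d ∈ Icc 1 U} (e d/T) times a box sum of Atb (F (m n) = Ek (m d c2) = Ek (d (m c2))), weights 1 (om = 0) or log m/T (om = 1): ≤ U 2T⁴(..) resp. U (1/T) 4T⁵ (..), both ≤ U 4T⁴ (..) with Q1 ≤ Y/(w+1) (e ≤ 1, 1/T ≤ 1). -/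
def AcgStmt : Prop := ∀ (X T : ℝ) (q t w U Y K i j om : ℕ) (a : ℤ) (e : ℕ → ℝ), Tau X T → Squarefree q → (q : ℝ) ≤ X →
  t ∣ q → Int.gcd a q = 1 → (Y : ℝ) ≤ X → 1 ≤ K → 1 ≤ w → (∀ d, |e d| ≤ 1) → (i : ℝ) + j + 2 ≤ K * Real.log Y →
  ‖∑ m ∈ Icc 1 Y, ∑ n ∈ Icc 1 Y,
      cl K i (fun m => if w < m ∧ m ≤ Y then (((if om = 0 then 1 else Real.log m / T : ℝ)) : ℂ) else 0) m *
      cl K j (fun n => if n ≤ Y then (((∑ d ∈ n.divisors.filter (fun d => d ≤ U ∧ w < n / d), e d) / T : ℝ) : ℂ) else 0) n *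
      Ek a t q (m * n)‖ ≤
    4 * T ^ 4 * U * (Real.sqrt q + (Y : ℝ) / w / Real.sqrt q + (Y : ℝ) / w / ((q / t).totient : ℝ))

/-- Module Atw (theorem tAtw; sums with two smooth variables, all q). Uses: MI.AclStmt, MK.AtrStmt, AcgStmt, AqsStmt. MODEL for the cells: Lib/SLA/Abi.lean.
Proof. η small: η ≤ ε/4, K = ⌈z^η⌉ + 3 (as in the MODEL), I = ⌊K log x⌋ + 1 ≤ 6 z^η T, G as in the MODEL (or G = 0: all cells with i + j + 2 ≤ K log Y are good, the boundary terms are those with K log k < 1 or K log Y - 2 < K log k), D = ⌊x^α⌋ (α ≤ 3/5), w = ⌊x^θ⌋, U ≤ x^(4ν), t q ≤ x^τ. Acl with α, β as in Acg (norms ≤ 1),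
F = Ek (a q) (t q) q, summed over q ∈ F: good cells: I² times Acg, summed with Aqs: ≤ 36 z^(2η) T² 4T⁴ x^(4ν) (x^(3α/2) + 2 (Y/w) x^(α/2) + (Y/w) x^τ T²), Y/w ≤ 2 x^(1-θ) (w ≥ x^θ/2): every product is ≤ 600 T^8 z^(2η) x^(1-3ε) ≤ 600 T^8 x/z^η (ParA; z ≤ x, 3η ≤ 3ε). Boundary: Atr ≤ 4T³ (e^((G+1)/K) + Y/K + 1 + D) ≤ C T³ x/z^η.
(Y = 0: both sides trivial.) The factor: the left side here is T^2 times the sum of Acl at most (om = 1: log m = T (log m/T); the sum of e over divisors = T β). -/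
def AtwStmt : Prop := ∀ α τ ν θ ε : ℝ, ParA α τ ν θ ε → ∃ (η C x0 : ℝ) (A0 : ℕ), 0 < η ∧ 0 ≤ C ∧ 3 ≤ x0 ∧
  ∀ (x T z : ℝ) (a : ℕ → ℤ) (Y U om : ℕ) (e : ℕ → ℝ) (F : Finset ℕ) (t : ℕ → ℕ), x0 ≤ x → Tau (x ^ (30 : ℝ)) T → 1 ≤ z →
  z ≤ x → (Y : ℝ) ≤ x → (U : ℝ) ≤ x ^ (4 * ν) → (∀ d, |e d| ≤ 1) →
  (∀ q ∈ F, Mz α τ z x (t q) q ∧ Int.gcd (a q) q = 1) →
  ∑ q ∈ F, ‖∑ m ∈ Icc 1 Y, ∑ n ∈ Icc 1 (Y / m),
      (if ⌊x ^ θ⌋₊ < m then (((if om = 0 then 1 else Real.log m : ℝ)) : ℂ) else 0) *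
      ((∑ d ∈ n.divisors.filter (fun d => d ≤ U ∧ ⌊x ^ θ⌋₊ < n / d), e d : ℝ) : ℂ) * Ek (a q) (t q) q (m * n)‖ ≤ Bd C A0 η x T z

/-! ### The theorem -/

/-- Module Afi (theorem tAfi; FINAL STATEMENT). Uses: AidStmt, AcvStmt, AonStmt, AbiStmt, AtwStmt. MODEL: Lib/SLA/Afi.lean.
Proof. u = ⌊x^ν⌋ ≥ 1, w = ⌊x^θ⌋ ≥ u, Y ≤ x < (w+1)³ (w + 1 > x^θ, 3θ ≥ 1); D = ⌊x^α⌋, τ(q) ≤ T, log Y ≤ T. Aid with F = Ek (a q) (t q) q for each q ∈ F; sum of the norms over q. First bracket, by Abi (η1, C1, A1), with f m = lt u w m/T, g n = gG u w n/(3T⁴) (0 for n > x; m, n ≤ Y ≤ x in the sums) etc.: support of f: u < m ≤ w gives x^ν < m ≤ x^θ; for eE: u < m ≤ u² ≤ x^(2ν) ≤ x^θ; factors 3T⁵, 6T⁶, 3T⁶: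
≤ 12 T⁶ Bd C1 A1. Second bracket by Aon: ≤ D 20 T⁴ u³ ≤ 20 T⁴ x^(α+3ν) ≤ 20 T⁴ x/z^η (α + 3ν ≤ 1 - 3ε). Third bracket by Atw: (am u ^ 3 * lt 0 u * zB w) n = ∑_{d ∣ n, d ≤ u⁴, n/d > w} (am u ^ 3 * lt 0 u) d, coefficients ≤ T⁴, U = u⁴ ≤ x^(4ν), om = 0; (am u ^ 2 * zB w) n similarly with coefficients ≤ T and U = u⁴ (or u²), om = 1: ≤ (T⁴ + T) Bd C2 A2. -/
def AfiStmt : Prop := ∀ (Φ : SLA.Hyp) (α τ ν θ ε : ℝ), ParA α τ ν θ ε → BlN Φ α τ ν θ ε → SLA.CoreStmt Φ α τ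

end Pool.Agent.Lib.NLA
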